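import Pool.Agent.Lib.MP_4aa539_al.Defs

set_option autoImplicit false

namespace Pool.Agent.MP4aa539

open MvPolynomial
open scoped Pointwise

section fiber

variable {K : Type} [Field K] {V : Type}

/-- the monomial ideal of a set of exponents -/
noncomputable def monoIdeal (K : Type) [Field K] {V : Type} (S : Set (V →₀ ℕ)) :
    Ideal (MvPolynomial V K) :=
  Ideal.span ((fun s => monomial s (1 : K)) '' S)

lemma mem_monoIdeal (S : Set (V →₀ ℕ)) (f : MvPolynomial V K) :
    f ∈ monoIdeal K S ↔ ∀ x ∈ f.support, ∃ s ∈ S, s ≤ x := mem_ideal_span_monomial_image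

lemma monoIdeal_mul (S T : Set (V →₀ ℕ)) :
    monoIdeal K S * monoIdeal K T = monoIdeal K (S + T) := by
  unfold monoIdeal
  rw [Ideal.span_mul_span']
  congr 1
  ext f
  simp only [Set.mem_mul, Set.mem_image, Set.mem_add]
  constructor
  · rintro ⟨_, ⟨s, hs, rfl⟩, _, ⟨t, ht, rfl⟩, rfl⟩
    exact ⟨s + t, ⟨s, hs, t, ht, rfl⟩, by rw [monomial_mul, one_mul]⟩
  · rintro ⟨_, ⟨s, hs, t, ht, rfl⟩, rfl⟩
    exact ⟨_, ⟨s, hs, rfl⟩, _, ⟨t, ht, rfl⟩, by rw [monomial_mul, one_mul]⟩

lemma monoIdeal_zero : monoIdeal K ({0} : Set (V →₀ ℕ)) = 1 := by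
  unfold monoIdeal
  rw [Set.image_singleton, Ideal.one_eq_top, Ideal.eq_top_iff_one]
  exact Ideal.subset_span (by simp)

lemma monoIdeal_pow (S : Set (V →₀ ℕ)) (t : ℕ) :
    monoIdeal K S ^ t = monoIdeal K (t • S) := by
  induction t with
  | zero => rw [pow_zero, zero_smul, ← monoIdeal_zero]; rfl
  | succ t ih => rw [pow_succ, ih, monoIdeal_mul, succ_nsmul]

lemma monoIdeal_prod {ι : Type} (s : Finset ι) (S : ι → Set (V →₀ ℕ)) :
    ∏ i ∈ s, monoIdeal K (S i) = monoIdeal K (∑ i ∈ s, S i) := by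
  classical
  induction s using Finset.induction_on with
  | empty => rw [Finset.prod_empty, Finset.sum_empty, ← monoIdeal_zero]; rfl
  | insert i s hi ih => rw [Finset.prod_insert hi, Finset.sum_insert hi, ih, monoIdeal_mul]

/-- exponents of the variables -/
def varExp (V : Type) : Set (V →₀ ℕ) := {e | ∃ v, e = Finsupp.single v 1}

lemma irr_eq : irr K V = monoIdeal K (varExp V) := by
  unfold irr monoIdeal
  congr 1
  ext f
  simp only [Set.mem_range, Set.mem_image, varExp]
  constructor
  · rintro ⟨v, rfl⟩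
    exact ⟨Finsupp.single v 1, ⟨v, rfl⟩, rfl⟩
  · rintro ⟨_, ⟨v, rfl⟩, rfl⟩
    exact ⟨v, rfl⟩

/-- the exponent vector of a face -/
noncomputable def ind (F : Finset V) : V →₀ ℕ := ∑ v ∈ F, Finsupp.single v 1

lemma monomial_ind (F : Finset V) : monomial (ind F) (1 : K) = ∏ v ∈ F, X v := by
  unfold ind
  rw [monomial_sum_one]
  rfl

/-- exponents of the `i`-dimensional faces -/
def faceExp (Δ : SComplex V) (i : ℕ) : Set (V →₀ ℕ) :=
  {e | ∃ F ∈ Δ.faces, F.card = i + 1 ∧ e = ind F}

lemma skelIdeal_eq (Δ : SComplex V) (i : ℕ) :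
    skelIdeal K Δ i = monoIdeal K (faceExp Δ i) := by
  unfold skelIdeal monoIdeal
  congr 1
  ext f
  simp only [Set.mem_image]
  constructor
  · rintro ⟨F, hF, hc, rfl⟩
    exact ⟨ind F, ⟨F, hF, hc, rfl⟩, monomial_ind F⟩
  · rintro ⟨_, ⟨F, hF, hc, rfl⟩, rfl⟩
    exact ⟨F, hF, hc, monomial_ind F⟩

lemma varExp_eq (Δ : SComplex V) : varExp V = faceExp Δ 0 := by
  ext e
  constructor
  · rintro ⟨v, rfl⟩
    exact ⟨{v}, Δ.vert v, rfl, by simp [ind]⟩
  · rintro ⟨F, hF, hc, rfl⟩
    obtain ⟨v, rfl⟩ := Finset.card_eq_one.mp hc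
    exact ⟨v, by simp [ind]⟩

/-- the sumset of exponents -/
def sumExp (Δ : SComplex V) (d : ℕ) (u : Fin d → ℕ) : Set (V →₀ ℕ) :=
  ∑ i : Fin d, u i • faceExp Δ i

lemma powIdeal_eq (Δ : SComplex V) (d : ℕ) (u : Fin d → ℕ) :
    powIdeal K Δ d u = monoIdeal K (sumExp Δ d u) := by
  unfold powIdeal sumExp
  rw [← monoIdeal_prod]
  refine Finset.prod_congr rfl fun i _ => ?_
  rw [← monoIdeal_pow]
  congr 1
  split_ifs with h
  · rw [irr_eq, varExp_eq Δ, h]
  · exact skelIdeal_eq Δ i

/-- dimension of the fiber of a monomial ideal generated in one degree -/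
lemma finrank_fiber (S : Set (V →₀ ℕ)) (hS : S.Finite) (D : ℕ) (hD : ∀ s ∈ S, s.degree = D) :
    Module.finrank K (monoIdeal K S ⧸
      (irr K V • (⊤ : Submodule (MvPolynomial V K) (monoIdeal K S)))) = S.ncard := by
  classical
  have hfin : Fintype S := hS.fintype
  set N : Submodule (MvPolynomial V K) (monoIdeal K S) := irr K V • ⊤ with hN
  let φ : (monoIdeal K S) →ₗ[K] (S → K) :=
    { toFun := fun f s => coeff (s : V →₀ ℕ) (f : MvPolynomial V K)
      map_add' := fun f g => by funext s; simp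
      map_smul' := fun c f => by funext s; simp }
  have hφ : ∀ f s, φ f s = coeff (s : V →₀ ℕ) (f : MvPolynomial V K) := fun _ _ => rfl
  have hsurj : Function.Surjective φ := by
    intro c
    refine ⟨⟨∑ s : S, monomial (s : V →₀ ℕ) (c s), ?_⟩, ?_⟩
    · refine Ideal.sum_mem _ fun s _ => ?_
      rw [mem_monoIdeal]
      intro x hx
      have := support_monomial_subset hx
      rw [Finset.mem_singleton] at this
      exact ⟨s, s.2, this ▸ le_rfl⟩
    · funext s
      rw [hφ]
      simp only [coeff_sum, coeff_monomial]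
      rw [Finset.sum_eq_single s]
      · simp
      · intro t _ hts
        rw [if_neg]
        intro h
        exact hts (Subtype.ext h)
      · intro h; exact absurd (Finset.mem_univ s) h
  have hker : LinearMap.ker φ = N.restrictScalars K := by
    ext f
    rw [LinearMap.mem_ker, Submodule.restrictScalars_mem, hN, Submodule.mem_smul_top_iff,
      smul_eq_mul, irr_eq, monoIdeal_mul, mem_monoIdeal]
    have hf := (mem_monoIdeal S (f : MvPolynomial V K)).mp f.2
    constructor
    · intro h x hx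
      obtain ⟨s, hs, hsx⟩ := hf x hx
      have hne : s ≠ x := by
        rintro rfl
        have := congrFun h ⟨s, hs⟩
        rw [hφ] at this
        exact (mem_support_iff.mp hx) this
      obtain ⟨v, hv⟩ : ∃ v, s v < x v := by
        by_contra hcon
        push Not at hcon
        exact hne (le_antisymm hsx hcon)
      refine ⟨Finsupp.single v 1 + s, Set.add_mem_add ⟨v, rfl⟩ hs, ?_⟩
      intro w
      by_cases hw : w = v
      · subst hw; simp; omega
      · simp [Ne.symm hw]
        exact hsx w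
    · intro h
      funext s
      rw [hφ, Pi.zero_apply]
      by_contra hcon
      obtain ⟨t, ht, hts⟩ := h s (mem_support_iff.mpr hcon)
      obtain ⟨_, ⟨v, rfl⟩, t', ht', rfl⟩ := Set.mem_add.mp ht
      have h1 := Finsupp.degree_mono hts
      rw [map_add, Finsupp.degree_single, hD t' ht', hD s s.2] at h1
      omega
  have e1 : ((monoIdeal K S) ⧸ N) ≃ₗ[K] (S → K) :=
    (Submodule.Quotient.restrictScalarsEquiv K N).symm.trans
      ((Submodule.quotEquivOfEq _ _ hker.symm).trans (φ.quotKerEquivOfSurjective hsurj))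
  rw [e1.finrank_eq, Module.finrank_fintype_fun_eq_card, ← Nat.card_eq_fintype_card]
  rfl

lemma finrank_fiber' (S : Set (V →₀ ℕ)) (hS : S.Finite) (D : ℕ) (hD : ∀ s ∈ S, s.degree = D)
    (J : Ideal (MvPolynomial V K)) (hJ : J = monoIdeal K S) :
    Module.finrank K (J ⧸ (irr K V • (⊤ : Submodule (MvPolynomial V K) J))) = S.ncard := by
  subst hJ
  exact finrank_fiber S hS D hD

lemma degree_ind (F : Finset V) : (ind F).degree = F.card := by
  unfold ind
  rw [map_sum]
  simp

lemma faceExp_finite [Finite V] (Δ : SComplex V) (i : ℕ) : (faceExp Δ i).Finite := by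
  have : Fintype V := Fintype.ofFinite V
  refine (Set.finite_range (fun F : Finset V => ind F)).subset ?_
  rintro _ ⟨F, _, _, rfl⟩
  exact ⟨F, rfl⟩

lemma nsmul_finite (S : Set (V →₀ ℕ)) (hS : S.Finite) (t : ℕ) : (t • S).Finite := by
  induction t with
  | zero => rw [zero_smul]; exact Set.finite_singleton _
  | succ t ih => rw [succ_nsmul]; exact ih.add hS

lemma nsmul_degree (S : Set (V →₀ ℕ)) (D : ℕ) (hD : ∀ s ∈ S, s.degree = D) (t : ℕ) :
    ∀ s ∈ t • S, s.degree = t * D := by
  induction t with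
  | zero =>
    intro s hs
    rw [zero_smul] at hs
    have : s = 0 := hs
    rw [this]; simp
  | succ t ih =>
    intro s hs
    rw [succ_nsmul] at hs
    obtain ⟨a, ha, b, hb, rfl⟩ := Set.mem_add.mp hs
    rw [map_add, ih a ha, hD b hb]; ring

lemma sumExp_finite [Finite V] (Δ : SComplex V) (d : ℕ) (u : Fin d → ℕ) :
    (sumExp Δ d u).Finite := by
  unfold sumExp
  classical
  induction (Finset.univ : Finset (Fin d)) using Finset.induction_on with
  | empty => rw [Finset.sum_empty]; exact Set.finite_singleton _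
  | insert i s hi ih =>
    rw [Finset.sum_insert hi]
    exact (nsmul_finite _ (faceExp_finite Δ i) _).add ih

lemma sumExp_degree (Δ : SComplex V) (d : ℕ) (u : Fin d → ℕ) :
    ∀ s ∈ sumExp Δ d u, s.degree = ∑ i : Fin d, u i * (i + 1) := by
  unfold sumExp
  classical
  have : ∀ t : Finset (Fin d), ∀ s ∈ ∑ i ∈ t, u i • faceExp Δ i,
      s.degree = ∑ i ∈ t, u i * ((i : ℕ) + 1) := by
    intro t
    induction t using Finset.induction_on with
    | empty =>
      intro s hs
      rw [Finset.sum_empty] at hs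
      have : s = 0 := hs
      rw [this]; simp
    | insert i t hi ih =>
      intro s hs
      rw [Finset.sum_insert hi] at hs
      obtain ⟨a, ha, b, hb, rfl⟩ := Set.mem_add.mp hs
      rw [Finset.sum_insert hi, map_add, ih b hb, nsmul_degree _ ((i : ℕ) + 1) ?_ _ a ha]
      rintro _ ⟨F, _, hc, rfl⟩
      rw [degree_ind, hc]
  exact this Finset.univ

/-- the fiber dimension counts the sumset -/
theorem fiberDim_eq [Finite V] (Δ : SComplex V) (d : ℕ) (u : Fin d → ℕ) :
    fiberDim K Δ d u = (sumExp Δ d u).ncard := by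
  unfold fiberDim
  exact finrank_fiber' _ (sumExp_finite Δ d u) _ (sumExp_degree Δ d u) _ (powIdeal_eq Δ d u)

end fiber

end Pool.Agent.MP4aa539
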