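import Pool.Agent.Lib.MP_4aa539_al.Alg

set_option autoImplicit false

namespace Pool.Agent.MP4aa539

open Finset

/-- vertices: `12 m` pairs, arranged in `12` groups of `m` pairs, and `19 m` core vertices -/
abbrev Vt (m : ℕ) : Type := (Fin 12 × Fin m × Bool) ⊕ Fin (19 * m)

/-- number of core vertices of a set of vertices -/
def coreCard {m : ℕ} (F : Finset (Vt m)) : ℕ := (F.filter (fun v => v.isRight = true)).card

/-- the pairs which meet a set of vertices -/
def touch {m : ℕ} (F : Finset (Vt m)) : Finset (Fin 12 × Fin m) :=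
  univ.filter (fun b => ∃ e : Bool, Sum.inl (b.1, b.2, e) ∈ F)

lemma coreCard_mono {m : ℕ} {F G : Finset (Vt m)} (h : G ⊆ F) : coreCard G ≤ coreCard F :=
  card_le_card (filter_subset_filter _ h)

lemma touch_mono {m : ℕ} {F G : Finset (Vt m)} (h : G ⊆ F) : touch G ⊆ touch F := by
  intro b hb
  rw [touch, mem_filter] at hb ⊢
  obtain ⟨_, e, he⟩ := hb
  exact ⟨mem_univ _, e, h he⟩

/-- The complex: sets of at most `13` vertices outside the core, and sets with at most one core
vertex which meet at most `6` pairs. -/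
def cx (m : ℕ) : SComplex (Vt m) where
  faces := {F | (coreCard F = 0 ∧ F.card ≤ 13) ∨ (coreCard F ≤ 1 ∧ (touch F).card ≤ 6)}
  down := by
    rintro F (⟨h1, h2⟩ | ⟨h1, h2⟩) G hG
    · exact Or.inl ⟨by have := coreCard_mono hG; omega, (card_le_card hG).trans h2⟩
    · exact Or.inr ⟨(coreCard_mono hG).trans h1, (card_le_card (touch_mono hG)).trans h2⟩
  vert := by
    intro v
    refine Or.inr ⟨?_, ?_⟩
    · exact (card_filter_le _ _).trans (by simp)
    · cases v with
      | inl x =>
        have : touch ({Sum.inl x} : Finset (Vt m)) ⊆ {(x.1, x.2.1)} := by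
          intro b hb
          rw [touch, mem_filter] at hb
          obtain ⟨_, e, he⟩ := hb
          rw [mem_singleton] at he ⊢
          have := Sum.inl.inj he
          rw [← this]
        exact (card_le_card this).trans (by simp)
      | inr c =>
        have : touch ({Sum.inr c} : Finset (Vt m)) ⊆ ∅ := by
          intro b hb
          rw [touch, mem_filter] at hb
          obtain ⟨_, e, he⟩ := hb
          rw [mem_singleton] at he
          exact absurd he (by simp)
        exact (card_le_card this).trans (by simp)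

lemma card_Vt (m : ℕ) : Fintype.card (Vt m) = 43 * m := by
  simp [Vt]; ring

/-- both vertices of the pairs in `T`, and the core vertices in `C` -/
def full {m : ℕ} (T : Finset (Fin 12 × Fin m)) (C : Finset (Fin (19 * m))) : Finset (Vt m) :=
  (T ×ˢ (univ : Finset Bool)).image (fun x => Sum.inl (x.1.1, x.1.2, x.2)) ∪ C.image Sum.inr

lemma mem_full_inl {m : ℕ} (T : Finset (Fin 12 × Fin m)) (C : Finset (Fin (19 * m)))
    (g : Fin 12) (r : Fin m) (e : Bool) :
    (Sum.inl (g, r, e) : Vt m) ∈ full T C ↔ (g, r) ∈ T := by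
  simp [full]

lemma mem_full_inr {m : ℕ} (T : Finset (Fin 12 × Fin m)) (C : Finset (Fin (19 * m)))
    (c : Fin (19 * m)) : (Sum.inr c : Vt m) ∈ full T C ↔ c ∈ C := by
  simp [full]

lemma card_full {m : ℕ} (T : Finset (Fin 12 × Fin m)) (C : Finset (Fin (19 * m))) :
    (full T C).card = 2 * T.card + C.card := by
  rw [full, card_union_of_disjoint, card_image_of_injective, card_image_of_injective, card_product]
  · simp [mul_comm]
  · exact Sum.inr_injective
  · rintro ⟨⟨a, b⟩, c⟩ ⟨⟨a', b'⟩, c'⟩ h
    simp at h
    simp [h]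
  · rw [disjoint_left]
    intro x hx hx'
    rw [mem_image] at hx hx'
    obtain ⟨a, _, rfl⟩ := hx
    obtain ⟨b, _, hb⟩ := hx'
    simp at hb

theorem cx_pure (m : ℕ) (hm : 2 ≤ m) : (cx m).IsPure 12 := by
  refine ⟨⟨∅, (cx m).down _ ((cx m).vert (Sum.inr ⟨0, by omega⟩)) ∅ (empty_subset _)⟩, ?_⟩
  rintro F (⟨h1, h2⟩ | ⟨h1, h2⟩)
  · -- extend outside the core
    have hsub : F ⊆ full (univ : Finset (Fin 12 × Fin m)) ∅ := by
      intro v hv
      rcases v with ⟨g, r, e⟩ | c
      · rw [mem_full_inl]; exact mem_univ _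
      · exfalso
        rw [coreCard, card_eq_zero, filter_eq_empty_iff] at h1
        exact h1 hv rfl
    obtain ⟨G, hG1, hG2, hG3⟩ := exists_subsuperset_card_eq hsub h2 (by
      rw [card_full]; simp; omega)
    refine ⟨G, Or.inl ⟨?_, hG3.le⟩, hG1, hG3⟩
    have := coreCard_mono hG2
    have h0 : coreCard (full (univ : Finset (Fin 12 × Fin m)) ∅) = 0 := by
      rw [coreCard, card_eq_zero, filter_eq_empty_iff]
      intro v hv hr
      rcases v with v | c
      · simp at hr
      · rw [mem_full_inr] at hv; simp at hv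
    omega
  · -- fill up to six pairs and one core vertex
    obtain ⟨T, hT1, _, hT3⟩ := exists_subsuperset_card_eq (subset_univ (touch F)) h2 (by
      simp; omega)
    have hCF : ∃ C : Finset (Fin (19 * m)), C.card = 1 ∧ ∀ c, Sum.inr c ∈ F → c ∈ C := by
      have hc0 : ((univ : Finset (Fin (19 * m))).filter (fun c => Sum.inr c ∈ F)).card ≤ 1 := by
        refine le_trans ?_ h1
        rw [coreCard]
        refine card_le_card_of_injOn Sum.inr ?_ Sum.inr_injective.injOn
        intro c hc
        rw [mem_coe, mem_filter] at hc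
        rw [mem_coe, mem_filter]
        exact ⟨hc.2, rfl⟩
      obtain ⟨C, hC1, _, hC3⟩ := exists_subsuperset_card_eq (subset_univ
        ((univ : Finset (Fin (19 * m))).filter (fun c => Sum.inr c ∈ F))) hc0 (by simp; omega)
      exact ⟨C, hC3, fun c hc => hC1 (by rw [mem_filter]; exact ⟨mem_univ _, hc⟩)⟩
    obtain ⟨C, hC1, hC2⟩ := hCF
    refine ⟨full T C, Or.inr ⟨?_, ?_⟩, ?_, ?_⟩
    · have : coreCard (full T C) = C.card := by
        have h : (full T C).filter (fun v => v.isRight = true) = C.image Sum.inr := by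
          ext v
          rw [mem_filter, mem_image]
          rcases v with v | c
          · simp
          · rw [mem_full_inr]; simp
        rw [coreCard, h, card_image_of_injective _ Sum.inr_injective]
      omega
    · have : touch (full T C) = T := by
        ext b
        rw [touch, mem_filter]
        constructor
        · rintro ⟨_, e, he⟩
          rwa [mem_full_inl] at he
        · intro hb
          exact ⟨mem_univ _, true, by rwa [mem_full_inl]⟩
      rw [this, hT3]
    · intro v hv
      rcases v with ⟨g, r, e⟩ | c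
      · rw [mem_full_inl]
        refine hT1 ?_
        rw [touch, mem_filter]
        exact ⟨mem_univ _, e, hv⟩
      · rw [mem_full_inr]
        exact hC2 c hv
    · rw [card_full, hT3, hC1]

lemma faceExp_nonempty (m : ℕ) (hm : 2 ≤ m) (j : Fin 12) : (faceExp (cx m) j).Nonempty := by
  obtain ⟨⟨F, hF⟩, hpure⟩ := cx_pure m hm
  obtain ⟨G, hG, _, hc⟩ := hpure F hF
  obtain ⟨H, hH1, hH2⟩ := exists_subset_card_eq (s := G) (n := (j : ℕ) + 1) (by
    rw [hc]; omega)
  exact ⟨ind H, H, (cx m).down G hG H hH1, hH2, rfl⟩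

end Pool.Agent.MP4aa539
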