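import Pool.Agent.Lib.MP_4aa539_al.Lower

set_option autoImplicit false

namespace Pool.Agent.MP4aa539

open Finset
open scoped Pointwise

variable {m : ℕ}

/-- differences with the extra faces added -/
def aa (R1 R2 : Finset (Fin m)) (a : Fin 12 → Fin m → ℕ) (j : Fin 12 ⊕ Fin 12 → ℕ)
    (g : Fin 12) (r : Fin m) : ℕ :=
  a g r + 1 + ((if r ∈ R1 then j (Sum.inl g) else 0) + (if r ∈ R2 then j (Sum.inr g) else 0))

/-- minima with the extra faces added -/
def bb (r0 : Fin m) (b : Fin 12 → Fin m → ℕ) (j : Fin 12 ⊕ Fin 12 → ℕ)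
    (g : Fin 12) (r : Fin m) : ℕ :=
  b g r + if r = r0 then j (Sum.inr g) else 0

/-- the extra face: singles of the group `g` -/
noncomputable def ex1 (σ : Fin 12 → Fin m → Bool) (R1 : Finset (Fin m)) (g : Fin 12) :
    Vt m →₀ ℕ :=
  prof σ (fun g' r => if g' = g ∧ r ∈ R1 then 1 else 0) (fun _ _ => 0) (fun _ => 0)

/-- the extra face: one pair and singles of the group `g` -/
noncomputable def ex2 (σ : Fin 12 → Fin m → Bool) (R2 : Finset (Fin m)) (r0 : Fin m)
    (g : Fin 12) : Vt m →₀ ℕ :=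
  prof σ (fun g' r => if g' = g ∧ r ∈ R2 then 1 else 0)
    (fun g' r => if g' = g ∧ r = r0 then 1 else 0) (fun _ => 0)

lemma prof_split (σ : Fin 12 → Fin m → Bool) (R1 R2 : Finset (Fin m)) (r0 : Fin m)
    (a b : Fin 12 → Fin m → ℕ) (j : Fin 12 ⊕ Fin 12 → ℕ) (z : Fin (19 * m) → ℕ) :
    prof σ (aa R1 R2 a j) (bb r0 b j) z = prof σ (fun g r => a g r + 1) b z +
      (∑ g, j (Sum.inl g) • ex1 σ R1 g + ∑ g, j (Sum.inr g) • ex2 σ R2 r0 g) := by
  ext v
  rcases v with ⟨g, r, e⟩ | c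
  · simp only [Finsupp.add_apply, Finsupp.finsetSum_apply, Finsupp.smul_apply, ex1, ex2, prof_inl,
      smul_eq_mul, aa, bb]
    have e1 : ∑ g', j (Sum.inl g') * (0 + if e = σ g r then if g = g' ∧ r ∈ R1 then 1 else 0 else 0)
        = if e = σ g r then (if r ∈ R1 then j (Sum.inl g) else 0) else 0 := by
      rw [sum_eq_single g]
      · split_ifs <;> simp_all
      · intro g' _ hg'
        simp [Ne.symm hg']
      · intro h; exact absurd (mem_univ _) h
    have e2 : ∑ g', j (Sum.inr g') * ((if g = g' ∧ r = r0 then 1 else 0) +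
        if e = σ g r then if g = g' ∧ r ∈ R2 then 1 else 0 else 0)
        = (if r = r0 then j (Sum.inr g) else 0) +
          if e = σ g r then (if r ∈ R2 then j (Sum.inr g) else 0) else 0 := by
      rw [sum_eq_single g]
      · split_ifs <;> simp_all <;> ring
      · intro g' _ hg'
        simp [Ne.symm hg']
      · intro h; exact absurd (mem_univ _) h
    rw [e1, e2]
    split_ifs <;> omega
  · simp [ex1, ex2, prof_inr]

lemma degree_prof (σ : Fin 12 → Fin m → Bool) (a b : Fin 12 → Fin m → ℕ)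
    (z : Fin (19 * m) → ℕ) :
    (prof σ a b z).degree = ∑ g, ∑ r, a g r + 2 * ∑ g, ∑ r, b g r + ∑ c, z c := by
  rw [Finsupp.degree_eq_sum, Fintype.sum_sum_type, Fintype.sum_prod_type]
  congr 1
  rw [mul_sum, ← sum_add_distrib]
  refine sum_congr rfl fun g _ => ?_
  rw [Fintype.sum_prod_type, mul_sum, ← sum_add_distrib]
  refine sum_congr rfl fun r _ => ?_
  rw [Fintype.sum_bool, prof_inl, prof_inl]
  cases σ g r <;> simp <;> ring

lemma ex1_mem (σ : Fin 12 → Fin m → Bool) (R1 : Finset (Fin m)) (g : Fin 12) (i : ℕ)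
    (hR : R1.card = i + 1) (hi : i + 1 ≤ 13) : ex1 σ R1 g ∈ faceExp (cx m) i := by
  refine mem_faceExp_A ?_ ?_ hi ?_
  · rintro (⟨g', r, e⟩ | c)
    · rw [ex1, prof_inl]
      split_ifs <;> omega
    · rw [ex1, prof_inr]; omega
  · rw [ex1, degree_prof]
    simp only [sum_const_zero, mul_zero, add_zero]
    rw [sum_eq_single g]
    · simp [hR]
    · intro g' _ hg'
      simp [hg']
    · intro h; exact absurd (mem_univ _) h
  · intro c
    rw [ex1, prof_inr]

lemma ex2_mem (σ : Fin 12 → Fin m → Bool) (R2 : Finset (Fin m)) (r0 : Fin m) (g : Fin 12) (i : ℕ)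
    (hR : R2.card + 2 = i + 1) (hr : r0 ∉ R2) (hi : i + 1 ≤ 13) :
    ex2 σ R2 r0 g ∈ faceExp (cx m) i := by
  refine mem_faceExp_A ?_ ?_ hi ?_
  · rintro (⟨g', r, e⟩ | c)
    · rw [ex2, prof_inl]
      split_ifs with h1 h2 h3 <;> try omega
      exact absurd (h1.2 ▸ h3.2) hr
    · rw [ex2, prof_inr]; omega
  · rw [ex2, degree_prof]
    simp only [sum_const_zero, add_zero]
    rw [sum_eq_single g, sum_eq_single g]
    · simp [← hR]
    · intro g' _ hg'
      simp [hg']
    · intro h; exact absurd (mem_univ _) h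
    · intro g' _ hg'
      simp [hg']
    · intro h; exact absurd (mem_univ _) h
  · intro c
    rw [ex2, prof_inr]

lemma mem_total {i N sα sβ sζ : ℕ} (F : Family i N sα sβ sζ) (K : ℕ) (hi : i + 1 ≤ 13)
    (R1 R2 : Finset (Fin m)) (r0 : Fin m) (hR1 : R1.card = i + 1) (hR2 : R2.card + 2 = i + 1)
    (hr : r0 ∉ R2) (σ : Fin 12 → Fin m → Bool) (a b : Fin 12 → Fin m → ℕ)
    (j : Fin 12 ⊕ Fin 12 → ℕ) (z : Fin (19 * m) → ℕ)
    (ha : ∀ g, ∑ r, a g r + m = sα * K) (hb : ∀ g, ∑ r, b g r = sβ * K)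
    (hz : ∑ c, z c = sζ * K) (h : ℕ) (hh : h = N * K + ∑ x, j x) :
    prof σ (aa R1 R2 a j) (bb r0 b j) z ∈ h • faceExp (cx m) i := by
  rw [hh, prof_split, add_nsmul, Fintype.sum_sum_type, add_nsmul]
  refine Set.add_mem_add ?_ (Set.add_mem_add ?_ ?_)
  · refine prof_mem F K σ _ b z (fun g => ?_) hb hz
    rw [sum_add_distrib, ← ha g]
    simp
  · exact sum_nsmul_mem _ _ _ _ fun g _ => ex1_mem σ R1 g i hR1 hi
  · exact sum_nsmul_mem _ _ _ _ fun g _ => ex2_mem σ R2 r0 g i hR2 hr hi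

lemma prof_inj (σ σ' : Fin 12 → Fin m → Bool) (a b a' b' : Fin 12 → Fin m → ℕ)
    (z z' : Fin (19 * m) → ℕ) (ha : ∀ g r, 1 ≤ a g r) (ha' : ∀ g r, 1 ≤ a' g r)
    (h : prof σ a b z = prof σ' a' b' z') : σ = σ' ∧ a = a' ∧ b = b' ∧ z = z' := by
  have key : ∀ g r, σ g r = σ' g r ∧ a g r = a' g r ∧ b g r = b' g r := by
    intro g r
    have h1 := DFunLike.congr_fun h (Sum.inl (g, r, true))
    have h2 := DFunLike.congr_fun h (Sum.inl (g, r, false))
    rw [prof_inl, prof_inl] at h1 h2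
    have := ha g r
    have := ha' g r
    cases h3 : σ g r <;> cases h4 : σ' g r <;> simp [h3, h4] at h1 h2 ⊢ <;> omega
  refine ⟨?_, ?_, ?_, ?_⟩
  · funext g r; exact (key g r).1
  · funext g r; exact (key g r).2.1
  · funext g r; exact (key g r).2.2
  · funext c
    have := DFunLike.congr_fun h (Sum.inr c)
    rwa [prof_inr, prof_inr] at this

/-- the index set of the vectors counted in the lower bound -/
def Dat (m : ℕ) (N sα sβ sζ p s : ℕ) : Finset (Σ _ : ℕ, (Fin 12 → Fin m → Bool) ×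
    ((Fin 12 → Fin m → ℕ) × ((Fin 12 → Fin m → ℕ) × ((Fin (19 * m) → ℕ) ×
      (Fin 12 ⊕ Fin 12 → ℕ))))) :=
  (range s).sigma fun i' => (univ : Finset (Fin 12 → Fin m → Bool)) ×ˢ
    ((Fintype.piFinset fun _ => piAntidiag (univ : Finset (Fin m)) (sα * (p * s + m + i') - m)) ×ˢ
      ((Fintype.piFinset fun _ => piAntidiag (univ : Finset (Fin m)) (sβ * (p * s + m + i'))) ×ˢ
        (piAntidiag (univ : Finset (Fin (19 * m))) (sζ * (p * s + m + i')) ×ˢ
          piAntidiag (univ : Finset (Fin 12 ⊕ Fin 12))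
            (N * ((p + 3) * s) - N * (p * s + m + i')))))

lemma choose_lower (m t u : ℕ) (hm : 1 ≤ m) (hu : u ≤ t) :
    (u : ℚ) ^ (m - 1) / ((m - 1).factorial : ℚ) ≤ (((m + t - 1).choose t : ℕ) : ℚ) := by
  have h1 : (m + t - 1).choose t = (m + t - 1).choose (m - 1) := by
    rw [← Nat.choose_symm_of_eq_add (show m + t - 1 = t + (m - 1) by omega)]
  rw [h1]
  refine le_trans ?_ (Nat.pow_le_choose (α := ℚ) (m - 1) (m + t - 1))
  gcongr
  exact_mod_cast (by omega : u ≤ m + t - 1 + 1 - (m - 1))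

lemma card_Dat (m : ℕ) (hm : 1 ≤ m) (N sα sβ sζ p s : ℕ) (hs : m ≤ s) (hsα : 1 ≤ sα) :
    (s : ℚ) * (2 ^ (12 * m) * ((((sα * (p * s) : ℕ) : ℚ) ^ (m - 1) / ((m - 1).factorial : ℚ)) ^ 12 *
      ((((sβ * (p * s) : ℕ) : ℚ) ^ (m - 1) / ((m - 1).factorial : ℚ)) ^ 12 *
        ((((sζ * (p * s) : ℕ) : ℚ) ^ (19 * m - 1) / ((19 * m - 1).factorial : ℚ)) *
          (((N * s : ℕ) : ℚ) ^ 23 / ((23).factorial : ℚ)))))) ≤ ((Dat m N sα sβ sζ p s).card : ℚ) := by
  rw [Dat, card_sigma, Nat.cast_sum]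
  have : (s : ℚ) = ((range s).card : ℚ) := by rw [card_range]
  rw [this, ← nsmul_eq_mul]
  refine card_nsmul_le_sum _ _ _ fun i' hi' => ?_
  rw [mem_range] at hi'
  simp only [card_product, Fintype.card_piFinset, card_comps, Fintype.card_fin, prod_const,
    card_univ, Fintype.card_sum]
  have h2 : Fintype.card (Fin 12 → Fin m → Bool) = 2 ^ (12 * m) := by
    simp [← pow_mul, mul_comm]
  rw [h2]
  push_cast
  have e1 := choose_lower m (sα * (p * s + m + i') - m) (sα * (p * s)) hm (by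
    have : sα * (p * s + m + i') = sα * (p * s) + sα * m + sα * i' := by ring
    have : m ≤ sα * m := Nat.le_mul_of_pos_left m hsα
    omega)
  have e2 := choose_lower m (sβ * (p * s + m + i')) (sβ * (p * s)) hm (by
    refine Nat.mul_le_mul_left _ ?_
    omega)
  have e3 := choose_lower (19 * m) (sζ * (p * s + m + i')) (sζ * (p * s)) (by omega) (by
    refine Nat.mul_le_mul_left _ ?_
    omega)
  have e4 := choose_lower 24 (N * ((p + 3) * s) - N * (p * s + m + i')) (N * s) (by omega) (by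
    rw [← Nat.mul_sub]
    refine Nat.mul_le_mul_left _ ?_
    have : (p + 3) * s = p * s + 3 * s := by ring
    omega)
  push_cast at e1 e2 e3 e4
  gcongr

/-- The counting lower bound. -/
theorem lower_count {i N sα sβ sζ : ℕ} (F : Family i N sα sβ sζ) (hi : i + 1 ≤ 13)
    (hi2 : 1 ≤ i) (m : ℕ) (hm : i + 1 ≤ m) (hsα : 1 ≤ sα) (hsζ : 1 ≤ sζ) (p s : ℕ) (hs : m ≤ s) :
    (Dat m N sα sβ sζ p s).card ≤ ((N * ((p + 3) * s)) • faceExp (cx m) i).ncard := by
  classical
  obtain ⟨R1, _, hR1⟩ := exists_subset_card_eq (s := (univ : Finset (Fin m))) (n := i + 1)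
    (by rw [card_univ, Fintype.card_fin]; exact hm)
  set r0 : Fin m := ⟨0, by omega⟩ with hr0
  obtain ⟨R2, hR2', hR2⟩ := exists_subset_card_eq (s := (univ : Finset (Fin m)).erase r0)
    (n := i - 1) (by rw [card_erase_of_mem (mem_univ _), card_univ, Fintype.card_fin]; omega)
  have hr : r0 ∉ R2 := fun h => by
    have := hR2' h
    simp at this
  have hfin : ((N * ((p + 3) * s)) • faceExp (cx m) i).Finite :=
    nsmul_finite _ (faceExp_finite _ _) _
  rw [Set.ncard_eq_toFinset_card _ hfin]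
  refine card_le_card_of_injOn (fun x => prof x.2.1 (aa R1 R2 x.2.2.1 x.2.2.2.2.2)
    (bb r0 x.2.2.2.1 x.2.2.2.2.2) x.2.2.2.2.1) ?_ ?_
  · rintro ⟨i', σ, a, b, z, j⟩ hx
    rw [mem_coe, Dat, mem_sigma] at hx
    simp only [mem_product, Fintype.mem_piFinset, mem_univ, true_and, mem_piAntidiag, mem_range,
      implies_true, and_true, ne_eq] at hx
    obtain ⟨hi', ha, hb, hz, hj⟩ := hx
    rw [mem_coe, Set.Finite.mem_toFinset]
    have h1 : m ≤ sα * (p * s + m + i') :=
      (Nat.le_mul_of_pos_left m hsα).trans (Nat.mul_le_mul_left _ (by omega))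
    have h2 : N * (p * s + m + i') ≤ N * ((p + 3) * s) := by
      refine Nat.mul_le_mul_left _ ?_
      have : (p + 3) * s = p * s + 3 * s := by ring
      omega
    have h3 : N * ((p + 3) * s) = N * (p * s + m + i') + ∑ x, j x := by
      rw [hj]; omega
    have h5 : R2.card + 2 = i + 1 := by omega
    have ha' : ∀ g, ∑ r, a g r + m = sα * (p * s + m + i') := by
      intro g
      rw [ha g]
      omega
    have hb' : ∀ g, ∑ r, b g r = sβ * (p * s + m + i') := hb
    have hz' : ∑ c, z c = sζ * (p * s + m + i') := hz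
    exact mem_total F (p * s + m + i') hi R1 R2 r0 hR1 h5 hr σ a b j z ha' hb' hz' _ h3
  · rintro ⟨i₁, σ₁, a₁, b₁, z₁, j₁⟩ hx ⟨i₂, σ₂, a₂, b₂, z₂, j₂⟩ hy hxy
    rw [mem_coe, Dat, mem_sigma] at hx hy
    simp only [mem_product, Fintype.mem_piFinset, mem_univ, true_and, mem_piAntidiag, mem_range,
      implies_true, and_true, ne_eq] at hx hy
    obtain ⟨hi₁, ha₁, hb₁, hz₁, hj₁⟩ := hx
    obtain ⟨hi₂, ha₂, hb₂, hz₂, hj₂⟩ := hy
    obtain ⟨hσ, ha, hb, hz⟩ := prof_inj _ _ _ _ _ _ _ _ (fun g r => by unfold aa; omega)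
      (fun g r => by unfold aa; omega) hxy
    simp only at hσ hz
    subst hσ hz
    have hii : i₁ = i₂ := by
      have : sζ * (p * s + m + i₁) = sζ * (p * s + m + i₂) := hz₁.symm.trans hz₂
      have := Nat.eq_of_mul_eq_mul_left hsζ this
      omega
    subst hii
    have hj2 : ∀ g, j₁ (Sum.inr g) = j₂ (Sum.inr g) := by
      intro g
      have h1 : ∑ r, bb r0 b₁ j₁ g r = ∑ r, bb r0 b₂ j₂ g r := by
        simp only at hb
        rw [hb]
      unfold bb at h1
      rw [sum_add_distrib, sum_add_distrib, hb₁ g, hb₂ g] at h1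
      simp at h1
      exact h1
    have hj1 : ∀ g, j₁ (Sum.inl g) = j₂ (Sum.inl g) := by
      intro g
      have h1 : ∑ r, aa R1 R2 a₁ j₁ g r = ∑ r, aa R1 R2 a₂ j₂ g r := by
        simp only at ha
        rw [ha]
      unfold aa at h1
      simp only [sum_add_distrib, ha₁ g, ha₂ g, hj2 g] at h1
      simp only [sum_ite_mem, univ_inter, sum_const, hR1, smul_eq_mul] at h1
      have h2 : (i + 1) * j₁ (Sum.inl g) = (i + 1) * j₂ (Sum.inl g) := by omega
      exact Nat.eq_of_mul_eq_mul_left (by omega) h2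
    have hj : j₁ = j₂ := by
      funext x
      rcases x with g | g
      · exact hj1 g
      · exact hj2 g
    subst hj
    have ha' : a₁ = a₂ := by
      funext g r
      have := congrFun (congrFun ha g) r
      simp only [aa] at this
      omega
    have hb' : b₁ = b₂ := by
      funext g r
      have := congrFun (congrFun hb g) r
      simp only [bb] at this
      omega
    subst ha' hb'
    rfl

end Pool.Agent.MP4aa539
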