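import Mathlib

set_option autoImplicit false

namespace Pool.Agent.MP4aa539

open MvPolynomial

/-- A simplicial complex whose vertex set is `V` (every element of `V` is a vertex). -/
structure SComplex (V : Type) where
  faces : Set (Finset V)
  down : ∀ F ∈ faces, ∀ G : Finset V, G ⊆ F → G ∈ faces
  vert : ∀ v : V, {v} ∈ faces

/-- `Δ` is pure of dimension `d`: it is nonempty and every face lies in a face with `d + 1`
vertices, and no face has more vertices. -/
def SComplex.IsPure {V : Type} (Δ : SComplex V) (d : ℕ) : Prop :=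
  Δ.faces.Nonempty ∧ ∀ F ∈ Δ.faces, ∃ G ∈ Δ.faces, F ⊆ G ∧ G.card = d + 1

/-- The maximal ideal generated by the variables. -/
noncomputable def irr (K : Type) [Field K] (V : Type) : Ideal (MvPolynomial V K) :=
  Ideal.span (Set.range X)

/-- The facet ideal of the `i`-skeleton: it is generated by the squarefree monomials of the
`i`-dimensional faces. -/
noncomputable def skelIdeal (K : Type) [Field K] {V : Type} (Δ : SComplex V) (i : ℕ) :
    Ideal (MvPolynomial V K) :=
  Ideal.span {f | ∃ F ∈ Δ.faces, F.card = i + 1 ∧ f = ∏ v ∈ F, X v}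

/-- `J^u = 𝔪^{u_0} I_1^{u_1} ⋯ I_{d-1}^{u_{d-1}}`. -/
noncomputable def powIdeal (K : Type) [Field K] {V : Type} (Δ : SComplex V) (d : ℕ)
    (u : Fin d → ℕ) : Ideal (MvPolynomial V K) :=
  ∏ i : Fin d, (if (i : ℕ) = 0 then irr K V else skelIdeal K Δ i) ^ u i

/-- `dim_K (J^u / 𝔪 J^u)`. -/
noncomputable def fiberDim (K : Type) [Field K] {V : Type} (Δ : SComplex V) (d : ℕ)
    (u : Fin d → ℕ) : ℕ :=
  Module.finrank K (powIdeal K Δ d u ⧸
    (irr K V • (⊤ : Submodule (MvPolynomial V K) (powIdeal K Δ d u))))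

/-- `P` is the polynomial which gives `dim_K (J^u / 𝔪 J^u)` for all `u` with large entries. -/
def IsMixedPoly (K : Type) [Field K] {V : Type} (Δ : SComplex V) (d : ℕ)
    (P : MvPolynomial (Fin d) ℚ) : Prop :=
  ∃ N : ℕ, ∀ u : Fin d → ℕ, (∀ i, N ≤ u i) →
    (fiberDim K Δ d u : ℚ) = eval (fun i => (u i : ℚ)) P

/-- The extreme mixed multiplicity `A(i, Δ)` read off from the polynomial `P`: it is `(n-1)!` times
the coefficient of `u_i^{n-1}`, where `n` is the number of vertices. -/
noncomputable def extremeMult (V : Type) [Fintype V] {d : ℕ} (P : MvPolynomial (Fin d) ℚ)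
    (i : Fin d) : ℚ :=
  ((Fintype.card V - 1).factorial : ℚ) * P.coeff (Finsupp.single i (Fintype.card V - 1))

end Pool.Agent.MP4aa539
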