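import Mathlib

set_option autoImplicit false

namespace Pool.Agent.MP4aa539

open MvPolynomial Finset

/-! ### eventually polynomial functions -/

/-- eventually polynomial -/
def EP {d : ℕ} (f : (Fin d → ℕ) → ℚ) : Prop :=
  ∃ P : MvPolynomial (Fin d) ℚ, ∃ N : ℕ, ∀ u : Fin d → ℕ, (∀ i, N ≤ u i) →
    f u = eval (fun i => (u i : ℚ)) P

lemma EP.const {d : ℕ} (c : ℚ) : EP (fun _ : Fin d → ℕ => c) :=
  ⟨C c, 0, fun u _ => by simp⟩

lemma EP.add {d : ℕ} {f g : (Fin d → ℕ) → ℚ} (hf : EP f) (hg : EP g) :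
    EP (fun u => f u + g u) := by
  obtain ⟨P, N, h⟩ := hf
  obtain ⟨Q, M, h'⟩ := hg
  refine ⟨P + Q, max N M, fun u hu => ?_⟩
  show f u + g u = _
  rw [map_add, h u fun i => (le_max_left _ _).trans (hu i),
    h' u fun i => (le_max_right _ _).trans (hu i)]

lemma EP.mul {d : ℕ} {f g : (Fin d → ℕ) → ℚ} (hf : EP f) (hg : EP g) :
    EP (fun u => f u * g u) := by
  obtain ⟨P, N, h⟩ := hf
  obtain ⟨Q, M, h'⟩ := hg
  refine ⟨P * Q, max N M, fun u hu => ?_⟩
  show f u * g u = _
  rw [map_mul, h u fun i => (le_max_left _ _).trans (hu i),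
    h' u fun i => (le_max_right _ _).trans (hu i)]

lemma EP.sub {d : ℕ} {f g : (Fin d → ℕ) → ℚ} (hf : EP f) (hg : EP g) :
    EP (fun u => f u - g u) := by
  have := hf.add ((EP.const (-1)).mul hg)
  refine (congrArg EP ?_).mp this
  funext u
  ring

lemma EP.sum {d : ℕ} {ι : Type} (s : Finset ι) (f : ι → (Fin d → ℕ) → ℚ)
    (hf : ∀ i ∈ s, EP (f i)) : EP (fun u => ∑ i ∈ s, f i u) := by
  classical
  induction s using Finset.induction_on with
  | empty => simpa using EP.const (d := d) 0
  | insert i s hi ih =>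
    have := (hf i (mem_insert_self i s)).add (ih fun j hj => hf j (mem_insert_of_mem hj))
    refine (congrArg EP ?_).mp this
    funext u
    rw [sum_insert hi]

lemma EP.prod {d : ℕ} {ι : Type} (s : Finset ι) (f : ι → (Fin d → ℕ) → ℚ)
    (hf : ∀ i ∈ s, EP (f i)) : EP (fun u => ∏ i ∈ s, f i u) := by
  classical
  induction s using Finset.induction_on with
  | empty => simpa using EP.const (d := d) 1
  | insert i s hi ih =>
    have := (hf i (mem_insert_self i s)).mul (ih fun j hj => hf j (mem_insert_of_mem hj))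
    refine (congrArg EP ?_).mp this
    funext u
    rw [prod_insert hi]

lemma EP.congr {d : ℕ} {f g : (Fin d → ℕ) → ℚ} (hf : EP f) (N : ℕ)
    (h : ∀ u : Fin d → ℕ, (∀ i, N ≤ u i) → g u = f u) : EP g := by
  obtain ⟨P, M, h'⟩ := hf
  refine ⟨P, max N M, fun u hu => ?_⟩
  rw [h u fun i => (le_max_left _ _).trans (hu i), h' u fun i => (le_max_right _ _).trans (hu i)]

lemma choose_cast (x c : ℕ) :
    ((x + c).choose c : ℚ) = (∏ l ∈ range c, ((x : ℚ) + (l + 1))) / (c.factorial : ℚ) := by
  have h1 := Nat.ascFactorial_eq_factorial_mul_choose x c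
  have h2 : (x + 1).ascFactorial c = ∏ l ∈ range c, (x + 1 + l) :=
    Nat.ascFactorial_eq_prod_range (x + 1) c
  have h3 : (c.factorial : ℚ) ≠ 0 := by exact_mod_cast c.factorial_ne_zero
  rw [eq_div_iff h3]
  have h4 : ((x + 1).ascFactorial c : ℚ) = (c.factorial : ℚ) * ((x + c).choose c : ℚ) := by
    exact_mod_cast h1
  rw [mul_comm, ← h4, h2]
  push_cast
  refine prod_congr rfl fun l _ => ?_
  ring

lemma EP.choose {d : ℕ} (i : Fin d) (a c : ℕ) :
    EP (fun u : Fin d → ℕ => ((u i - a + c).choose c : ℚ)) := by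
  refine ⟨C (1 / (c.factorial : ℚ)) * ∏ l ∈ range c, (X i + C (-(a : ℚ) + (l + 1))), a,
    fun u hu => ?_⟩
  show ((u i - a + c).choose c : ℚ) = _
  rw [choose_cast, map_mul, map_prod, eval_C, div_eq_mul_one_div, mul_comm]
  congr 1
  refine prod_congr rfl fun l _ => ?_
  rw [map_add, eval_X, eval_C, Nat.cast_sub (hu i)]
  ring

/-! ### counting exponent vectors -/

section count

/-- number of compositions -/
lemma card_comps (Y : Type) [Fintype Y] [DecidableEq Y] (t : ℕ) :
    (piAntidiag (univ : Finset Y) t).card = (Fintype.card Y + t - 1).choose t := by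
  rw [← Sym.card_sym_eq_choose, ← Fintype.card_coe]
  refine Fintype.card_congr ?_
  refine (Equiv.subtypeEquivRight fun f => ?_).trans (Sym.equivNatSumOfFintype Y t).symm
  simp

variable {d : ℕ} {Y : Fin d → Type} [∀ j, Fintype (Y j)] [∀ j, DecidableEq (Y j)]

/-- block sums -/
def blk (m : (Σ j, Y j) → ℕ) (j : Fin d) : ℕ := ∑ y : Y j, m ⟨j, y⟩

lemma blk_add (m k : (Σ j, Y j) → ℕ) : blk (m + k) = blk m + blk k := by
  funext j
  simp only [blk, Pi.add_apply, sum_add_distrib]

/-- all vectors with given block sums -/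
def All (Y : Fin d → Type) [∀ j, Fintype (Y j)] [∀ j, DecidableEq (Y j)] (u : Fin d → ℕ) :
    Finset ((Σ j, Y j) → ℕ) :=
  (Fintype.piFinset fun j => piAntidiag (univ : Finset (Y j)) (u j)).image
    (fun g x => g x.1 x.2)

lemma mem_All (u : Fin d → ℕ) (m : (Σ j, Y j) → ℕ) : m ∈ All Y u ↔ blk m = u := by
  unfold All
  rw [mem_image]
  constructor
  · rintro ⟨g, hg, rfl⟩
    funext j
    rw [Fintype.mem_piFinset] at hg
    have := hg j
    rw [mem_piAntidiag] at this
    exact this.1
  · intro h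
    refine ⟨fun j y => m ⟨j, y⟩, ?_, rfl⟩
    rw [Fintype.mem_piFinset]
    intro j
    rw [mem_piAntidiag]
    exact ⟨congrFun h j, fun _ _ => mem_univ _⟩

lemma card_All (u : Fin d → ℕ) :
    (All Y u).card = ∏ j, (Fintype.card (Y j) + u j - 1).choose (u j) := by
  unfold All
  rw [card_image_of_injective, Fintype.card_piFinset]
  · exact prod_congr rfl fun j _ => card_comps (Y j) (u j)
  · intro g g' h
    funext j y
    exact congrFun h ⟨j, y⟩

open Classical in
lemma card_filter_ge (u : Fin d → ℕ) (v : (Σ j, Y j) → ℕ) (hv : blk v ≤ u) :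
    ((All Y u).filter (fun m => v ≤ m)).card = (All Y (u - blk v)).card := by
  symm
  refine card_bij (fun m _ => m + v) ?_ ?_ ?_
  · intro m hm
    rw [mem_All] at hm
    rw [mem_filter, mem_All, blk_add, hm]
    exact ⟨tsub_add_cancel_of_le hv, le_add_self⟩
  · intro m _ m' _ h
    exact add_right_cancel h
  · intro m hm
    rw [mem_filter, mem_All] at hm
    refine ⟨m - v, ?_, tsub_add_cancel_of_le hm.2⟩
    rw [mem_All]
    have : blk (m - v + v) = u := by rw [tsub_add_cancel_of_le hm.2]; exact hm.1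
    rw [blk_add] at this
    rw [← this, add_tsub_cancel_right]

open Classical in
lemma EP_ge [∀ j, Nonempty (Y j)] (v : (Σ j, Y j) → ℕ) :
    EP (fun u : Fin d → ℕ => (((All Y u).filter (fun m => v ≤ m)).card : ℚ)) := by
  refine EP.congr (EP.prod univ (fun j u => ((u j - blk v j + (Fintype.card (Y j) - 1)).choose
    (Fintype.card (Y j) - 1) : ℚ)) fun j _ => EP.choose j (blk v j) _) (∑ j, blk v j) ?_
  intro u hu
  have hv : blk v ≤ u := fun j => (single_le_sum (f := fun j => blk v j)
    (fun _ _ => Nat.zero_le _) (mem_univ j)).trans (hu j)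
  rw [card_filter_ge u v hv, card_All]
  push_cast
  refine prod_congr rfl fun j _ => ?_
  have h1 : 0 < Fintype.card (Y j) := Fintype.card_pos
  have h2 : Fintype.card (Y j) + (u - blk v) j - 1
      = u j - blk v j + (Fintype.card (Y j) - 1) := by
    rw [Pi.sub_apply]; omega
  rw [h2]
  norm_cast
  exact Nat.choose_symm_add

open Classical in
/-- vectors dominating one of finitely many vectors -/
lemma EP_union [∀ j, Nonempty (Y j)] (W : Finset ((Σ j, Y j) → ℕ)) :
    EP (fun u : Fin d → ℕ => (((All Y u).filter (fun m => ∃ w ∈ W, w ≤ m)).card : ℚ)) := by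
  classical
  have h1 : ∀ u : Fin d → ℕ, ((All Y u).filter (fun m => ∃ w ∈ W, w ≤ m))
      = W.biUnion (fun w => (All Y u).filter (fun m => w ≤ m)) := by
    intro u
    ext m
    simp only [mem_filter, mem_biUnion]
    tauto
  have h2 : ∀ (u : Fin d → ℕ) (t : Finset ((Σ j, Y j) → ℕ)) (ht : t.Nonempty),
      t.inf' ht (fun w => (All Y u).filter (fun m => w ≤ m))
        = (All Y u).filter (fun m => t.sup id ≤ m) := by
    intro u t ht
    ext m
    rw [mem_inf']
    simp only [mem_filter]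
    constructor
    · intro h
      refine ⟨(h _ ht.choose_spec).1, ?_⟩
      exact Finset.sup_le fun w hw => (h w hw).2
    · rintro ⟨ha, hb⟩ w hw
      exact ⟨ha, (le_sup (f := id) hw).trans hb⟩
  have h3 : ∀ u : Fin d → ℕ, (((All Y u).filter (fun m => ∃ w ∈ W, w ≤ m)).card : ℚ)
      = ∑ t : W.powerset.filter (·.Nonempty), (-1 : ℚ) ^ (t.1.card + 1)
        * (((All Y u).filter (fun m => t.1.sup id ≤ m)).card : ℚ) := by
    intro u
    rw [h1]
    have := inclusion_exclusion_card_biUnion W (fun w => (All Y u).filter (fun m => w ≤ m))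
    have h4 : ((W.biUnion (fun w => (All Y u).filter (fun m => w ≤ m))).card : ℚ)
        = (((W.biUnion (fun w => (All Y u).filter (fun m => w ≤ m))).card : ℤ) : ℚ) := by
      push_cast; rfl
    rw [h4, this]
    push_cast
    refine sum_congr rfl fun t _ => ?_
    rw [h2]
  refine (congrArg EP (funext fun u => (h3 u).symm)).mp ?_
  exact EP.sum univ _ fun t _ => (EP.const _).mul (EP_ge _)

end count

/-! ### the main counting theorem -/

section main

variable {d : ℕ} {Y : Fin d → Type} [∀ j, Fintype (Y j)] [∀ j, DecidableEq (Y j)]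
  [∀ j, Nonempty (Y j)] {G : Type} [AddCommMonoid G]

/-- the value of a vector -/
def vl (val : (Σ j, Y j) → G) (m : (Σ j, Y j) → ℕ) : G := ∑ x, m x • val x

lemma vl_add (val : (Σ j, Y j) → G) (m k : (Σ j, Y j) → ℕ) :
    vl val (m + k) = vl val m + vl val k := by
  simp only [vl, Pi.add_apply, add_smul, sum_add_distrib]

/-- the number of distinct values is eventually polynomial -/
theorem EP_values (val : (Σ j, Y j) → G) :
    EP (fun u : Fin d → ℕ => ((vl val '' {m | blk m = u}).ncard : ℚ)) := by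
  classical
  obtain ⟨lo⟩ : Nonempty (LinearOrder (Σ j, Y j)) := ⟨linearOrderOfSTO (WellOrderingRel)⟩
  let Us : Set ((Σ j, Y j) → ℕ) :=
    {m | ∃ m' : (Σ j, Y j) → ℕ, toLex m' < toLex m ∧ blk m' = blk m ∧ vl val m' = vl val m}
  have hup : ∀ m k, m ∈ Us → m ≤ k → k ∈ Us := by
    rintro m k ⟨m', h1, h2, h3⟩ hk
    obtain ⟨c, rfl⟩ := exists_add_of_le hk
    refine ⟨m' + c, ?_, ?_, ?_⟩
    · exact add_lt_add_left h1 (toLex c)
    · rw [blk_add, blk_add, h2]
    · rw [vl_add, vl_add, h3]
  -- Dickson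
  obtain ⟨W, hW⟩ : ∃ W : Finset ((Σ j, Y j) → ℕ), ∀ m, m ∈ Us ↔ ∃ w ∈ W, w ≤ m := by
    have hfin : {m | Minimal (· ∈ Us) m}.Finite := by
      refine WellQuasiOrderedLE.finite_of_isAntichain ?_
      intro a ha b hb hab hle
      exact hab (hb.eq_of_le ha.prop hle)
    refine ⟨hfin.toFinset, fun m => ⟨fun hm => ?_, ?_⟩⟩
    · obtain ⟨b, hb, hmin⟩ := (Set.isPWO_of_wellQuasiOrderedLE Us).exists_le_minimal hm
      exact ⟨b, by simpa using hmin, hb⟩
    · rintro ⟨w, hw, hwm⟩
      have : Minimal (· ∈ Us) w := by simpa using hw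
      exact hup w m this.prop hwm
  have key : ∀ u : Fin d → ℕ, ((vl val '' {m | blk m = u}).ncard : ℚ)
      = ((All Y u).card : ℚ) - (((All Y u).filter (fun m => ∃ w ∈ W, w ≤ m)).card : ℚ) := by
    intro u
    have h1 : vl val '' {m | blk m = u}
        = vl val '' (((All Y u).filter (fun m => ¬ ∃ w ∈ W, w ≤ m) : Finset _) :
          Set ((Σ j, Y j) → ℕ)) := by
      ext y
      constructor
      · rintro ⟨m, hm, rfl⟩
        -- minimal representative
        let T : Set (Lex ((Σ j, Y j) → ℕ)) :=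
          {k | blk (ofLex k) = u ∧ vl val (ofLex k) = vl val m}
        have hT : T.Nonempty := ⟨toLex m, hm, rfl⟩
        obtain ⟨k, hk, hmin⟩ := WellFounded.has_min
          (wellFounded_lt : WellFounded ((· < ·) : Lex ((Σ j, Y j) → ℕ) → _ → Prop)) T hT
        refine ⟨ofLex k, ?_, hk.2⟩
        rw [coe_filter, Set.mem_ofPred_eq, mem_All, ← hW]
        refine ⟨hk.1, ?_⟩
        rintro ⟨k', h1, h2, h3⟩
        exact hmin (toLex k') ⟨h2.trans hk.1, h3.trans hk.2⟩ h1
      · rintro ⟨m, hm, rfl⟩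
        rw [coe_filter, Set.mem_ofPred_eq, mem_All] at hm
        exact ⟨m, hm.1, rfl⟩
    have h2 : Set.InjOn (vl val) (((All Y u).filter (fun m => ¬ ∃ w ∈ W, w ≤ m) : Finset _) :
          Set ((Σ j, Y j) → ℕ)) := by
      intro a ha b hb hab
      rw [coe_filter, Set.mem_ofPred_eq, mem_All, ← hW] at ha hb
      rcases lt_trichotomy (toLex a) (toLex b) with h | h | h
      · exact absurd ⟨a, h, ha.1.trans hb.1.symm, hab⟩ hb.2
      · exact h
      · exact absurd ⟨b, h, hb.1.trans ha.1.symm, hab.symm⟩ ha.2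
    rw [h1, h2.ncard_image, Set.ncard_coe_finset]
    have h3 := card_filter_add_card_filter_not (s := All Y u) (fun m => ∃ w ∈ W, w ≤ m)
    rw [← h3]
    push_cast
    ring
  refine (congrArg EP (funext fun u => (key u).symm)).mp ?_
  refine EP.sub ?_ (EP_union W)
  have := EP_ge (Y := Y) (0 : (Σ j, Y j) → ℕ)
  refine (congrArg EP (funext fun u => ?_)).mp this
  congr 2
  exact filter_true_of_mem fun m _ => (zero_le : (0 : (Σ j, Y j) → ℕ) ≤ m)

end main

end Pool.Agent.MP4aa539
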