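import Pool.Agent.Lib.MP_4aa539_al.Alg
import Pool.Agent.Lib.MP_4aa539_al.Poly

set_option autoImplicit false

namespace Pool.Agent.MP4aa539

open MvPolynomial Filter Topology
open scoped Pointwise

section nsmul

variable {G : Type} [AddCommMonoid G]

lemma mem_nsmul_iff (S : Set G) [Fintype S] (t : ℕ) (y : G) :
    y ∈ t • S ↔ ∃ m : S → ℕ, ∑ s, m s = t ∧ ∑ s, m s • (s : G) = y := by
  classical
  induction t generalizing y with
  | zero =>
    rw [zero_smul]
    constructor
    · intro h
      have h0 : y = 0 := h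
      exact ⟨0, by simp, by simp [h0]⟩
    · rintro ⟨m, h1, rfl⟩
      have : ∀ s, m s = 0 := by
        intro s
        exact (Finset.sum_eq_zero_iff.mp h1) s (Finset.mem_univ s)
      simp only [this, zero_smul, Finset.sum_const_zero]
      rfl
  | succ t ih =>
    rw [succ_nsmul, Set.mem_add]
    constructor
    · rintro ⟨a, ha, b, hb, rfl⟩
      obtain ⟨m, h1, rfl⟩ := (ih a).mp ha
      refine ⟨m + Pi.single ⟨b, hb⟩ 1, ?_, ?_⟩
      · simp [Finset.sum_add_distrib, h1]
      · simp only [Pi.add_apply, add_smul, Finset.sum_add_distrib]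
        congr 1
        rw [Finset.sum_eq_single (⟨b, hb⟩ : S)]
        · simp
        · intro s _ hs
          rw [Pi.single_eq_of_ne hs, zero_smul]
        · intro h; exact absurd (Finset.mem_univ _) h
    · rintro ⟨m, h1, rfl⟩
      obtain ⟨s, hs⟩ : ∃ s, m s ≠ 0 := by
        by_contra hcon
        push Not at hcon
        simp [hcon] at h1
      have hm : m = (m - Pi.single s 1) + Pi.single s 1 := by
        funext x
        by_cases hx : x = s
        · subst hx; simp; omega
        · simp [Pi.single_eq_of_ne hx]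
      set k : S → ℕ := m - Pi.single s 1 with hk
      refine ⟨∑ x : S, k x • (x : G), (ih _).mpr ⟨k, ?_, rfl⟩, s, s.2, ?_⟩
      · have : ∑ x, m x = ∑ x, k x + 1 := by
          conv_lhs => rw [hm]
          simp [Finset.sum_add_distrib]
        omega
      · conv_rhs => rw [hm]
        simp only [Pi.add_apply, add_smul, Finset.sum_add_distrib]
        congr 1
        rw [Finset.sum_eq_single s]
        · simp
        · intro x _ hx
          rw [Pi.single_eq_of_ne hx, zero_smul]
        · intro h; exact absurd (Finset.mem_univ _) h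

end nsmul

section growth

variable {V : Type}

lemma sumExp_eq_values [Finite V] (Δ : SComplex V) (d : ℕ) (u : Fin d → ℕ)
    [∀ j : Fin d, Fintype (faceExp Δ j)] [∀ j : Fin d, DecidableEq (faceExp Δ j)] :
    sumExp Δ d u = vl (Y := fun j : Fin d => faceExp Δ j) (fun x => (x.2 : V →₀ ℕ))
      '' {m | blk m = u} := by
  ext y
  unfold sumExp
  rw [Set.mem_fintype_sum]
  constructor
  · rintro ⟨g, hg, rfl⟩
    choose m hm1 hm2 using fun i : Fin d => (mem_nsmul_iff (faceExp Δ i) (u i) (g i)).mp (hg i)
    refine ⟨fun x => m x.1 x.2, ?_, ?_⟩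
    · funext j
      exact hm1 j
    · simp only [vl]
      rw [Fintype.sum_sigma]
      exact Finset.sum_congr rfl fun i _ => hm2 i
  · rintro ⟨m, hm, rfl⟩
    refine ⟨fun j => ∑ s : faceExp Δ j, m ⟨j, s⟩ • (s : V →₀ ℕ), fun j => ?_, ?_⟩
    · rw [mem_nsmul_iff]
      exact ⟨fun s => m ⟨j, s⟩, congrFun hm j, rfl⟩
    · simp only [vl]
      rw [Fintype.sum_sigma]

theorem exists_poly [Finite V] (Δ : SComplex V) (d : ℕ)
    (hne : ∀ j : Fin d, (faceExp Δ j).Nonempty) :
    EP (fun u : Fin d → ℕ => ((sumExp Δ d u).ncard : ℚ)) := by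
  classical
  have hf : ∀ j : Fin d, Fintype (faceExp Δ j) := fun j => (faceExp_finite Δ j).fintype
  have hn : ∀ j : Fin d, Nonempty (faceExp Δ j) := fun j => (hne j).to_subtype
  have := EP_values (Y := fun j : Fin d => faceExp Δ j) (fun x => (x.2 : V →₀ ℕ))
  refine (congrArg EP (funext fun u => ?_)).mp this
  rw [sumExp_eq_values Δ d u]

/-- the trivial upper bound -/
lemma ncard_le [Fintype V] (S : Set (V →₀ ℕ)) (D : ℕ) (hD : ∀ s ∈ S, s.degree = D) (v₀ : V) :
    S.ncard ≤ (D + 1) ^ (Fintype.card V - 1) := by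
  classical
  have h1 : S.ncard ≤ (Set.univ : Set ({v : V // v ≠ v₀} → Fin (D + 1))).ncard := by
    refine Set.ncard_le_ncard_of_injOn
      (fun s v => ⟨min (s v) D, by omega⟩) (fun _ _ => Set.mem_univ _) ?_ Set.finite_univ
    intro s hs t ht hst
    have hle : ∀ r ∈ S, ∀ v, r v ≤ D := by
      intro r hr v
      rw [← hD r hr, Finsupp.degree_eq_sum]
      exact Finset.single_le_sum (f := fun v => r v) (fun _ _ => Nat.zero_le _) (Finset.mem_univ v)
    have heq : ∀ v, v ≠ v₀ → s v = t v := by
      intro v hv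
      have h2 := congrArg Fin.val (congrFun hst ⟨v, hv⟩)
      simp only at h2
      have := hle s hs v
      have := hle t ht v
      omega
    ext v
    by_cases hv : v = v₀
    · subst hv
      have h3 := hD s hs
      have h4 := hD t ht
      rw [Finsupp.degree_eq_sum, ← Finset.add_sum_erase _ _ (Finset.mem_univ v)] at h3 h4
      have h5 : ∑ x ∈ Finset.univ.erase v, s x = ∑ x ∈ Finset.univ.erase v, t x :=
        Finset.sum_congr rfl fun x hx => heq x (Finset.ne_of_mem_erase hx)
      omega
    · exact heq v hv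
  refine h1.trans (le_of_eq ?_)
  rw [Set.ncard_univ, Nat.card_eq_fintype_card, Fintype.card_fun, Fintype.card_fin]
  congr 1
  rw [Fintype.card_subtype_compl, Fintype.card_subtype_eq]

/-- real evaluation of a rational polynomial -/
lemma eval_expand {d : ℕ} (P : MvPolynomial (Fin d) ℚ) (x : Fin d → ℚ) :
    eval x P = ∑ m ∈ P.support, P.coeff m * ∏ i, x i ^ m i := eval_eq' x P

lemma tendsto_pow_div (a q : ℕ) (h : a < q) :
    Tendsto (fun t : ℕ => (t : ℚ) ^ a / (t : ℚ) ^ q) atTop (𝓝 0) := by
  have h1 : Tendsto (fun t : ℕ => ((t : ℚ) ^ (q - a))⁻¹) atTop (𝓝 0) :=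
    tendsto_inv_atTop_zero.comp ((tendsto_pow_atTop (by omega)).comp tendsto_natCast_atTop_atTop)
  refine h1.congr' ?_
  filter_upwards [eventually_gt_atTop 0] with t ht
  have ht' : (t : ℚ) ≠ 0 := by exact_mod_cast ht.ne'
  have : (t : ℚ) ^ q = (t : ℚ) ^ a * (t : ℚ) ^ (q - a) := by rw [← pow_add]; congr 1; omega
  rw [this]
  field_simp

theorem totalDegree_le [Fintype V] (v₀ : V) (Δ : SComplex V) (d : ℕ)
    (P : MvPolynomial (Fin d) ℚ) (N : ℕ)
    (hP : ∀ u : Fin d → ℕ, (∀ i, N ≤ u i) →
      ((sumExp Δ d u).ncard : ℚ) = eval (fun i => (u i : ℚ)) P) :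
    P.totalDegree ≤ Fintype.card V - 1 := by
  by_contra hcon
  push Not at hcon
  set Q := P.totalDegree with hQ
  have hP0 : P ≠ 0 := by
    rintro rfl
    simp at hQ
    omega
  set T := homogeneousComponent Q P with hT
  have hT0 : T = 0 := by
    refine funext_set (fun _ : Fin d => {x : ℚ | ∃ n : ℕ, 1 ≤ n ∧ x = n}) (fun _ => ?_) ?_
    · have : Set.InjOn (fun n : ℕ => (n : ℚ)) (Set.Ici 1) := Nat.cast_injective.injOn
      refine ((Set.Ici_infinite 1).image this).mono ?_
      rintro _ ⟨n, hn, rfl⟩
      exact ⟨n, hn, rfl⟩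
    · intro x hx
      choose v hv1 hv2 using fun i => hx i (Set.mem_univ i)
      rw [map_zero]
      -- limit of P(h v) / h^Q
      have h1 : Tendsto (fun h : ℕ => eval (fun i => ((h * v i : ℕ) : ℚ)) P / (h : ℚ) ^ Q) atTop
          (𝓝 (eval x T)) := by
        have e1 : ∀ᶠ h : ℕ in atTop, eval (fun i => ((h * v i : ℕ) : ℚ)) P / (h : ℚ) ^ Q
            = ∑ m ∈ P.support, (P.coeff m * ∏ i, x i ^ m i) * ((h : ℚ) ^ m.degree / (h : ℚ) ^ Q) := by
          filter_upwards with h
          rw [eval_expand, Finset.sum_div]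
          refine Finset.sum_congr rfl fun m _ => ?_
          have e2 : ∏ i, (((h * v i : ℕ) : ℚ)) ^ m i = (h : ℚ) ^ m.degree * ∏ i, x i ^ m i := by
            rw [Finsupp.degree_eq_sum, ← Finset.prod_pow_eq_pow_sum, ← Finset.prod_mul_distrib]
            refine Finset.prod_congr rfl fun i _ => ?_
            rw [hv2 i]; push_cast; ring
          rw [e2]; ring
        have e3 : eval x T = ∑ m ∈ P.support, (P.coeff m * ∏ i, x i ^ m i)
            * (if m.degree = Q then 1 else 0) := by
          rw [hT, homogeneousComponent_apply, map_sum, Finset.sum_filter]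
          refine Finset.sum_congr rfl fun m _ => ?_
          split_ifs
          · rw [eval_monomial, mul_one, Finsupp.prod_fintype _ _ (fun _ => pow_zero _)]
          · rw [mul_zero]
        rw [e3]
        refine Tendsto.congr' (e1.mono fun h hh => hh.symm) ?_
        refine tendsto_finsetSum _ fun m hm => Tendsto.const_mul _ ?_
        split_ifs with hd
        · rw [hd]
          refine Tendsto.congr' ?_ tendsto_const_nhds
          filter_upwards [eventually_gt_atTop 0] with h hh
          have : (h : ℚ) ≠ 0 := by exact_mod_cast hh.ne'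
          rw [div_self (pow_ne_zero _ this)]
        · refine tendsto_pow_div _ _ (lt_of_le_of_ne ?_ hd)
          have := le_totalDegree hm
          rw [← hQ] at this
          rw [Finsupp.degree_eq_sum]
          rwa [Finsupp.sum_fintype _ _ (fun _ => rfl)] at this
      set c : ℕ := ∑ i, v i * ((i : ℕ) + 1) with hc
      have h2 : ∀ᶠ h : ℕ in atTop, eval (fun i => ((h * v i : ℕ) : ℚ)) P / (h : ℚ) ^ Q
          ≤ ((c : ℚ) + 1) ^ (Fintype.card V - 1) * ((h : ℚ) ^ (Fintype.card V - 1) / (h : ℚ) ^ Q) := by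
        filter_upwards [eventually_ge_atTop (max N 1)] with h hh
        have hN : N ≤ h := (le_max_left _ _).trans hh
        have h1' : 1 ≤ h := (le_max_right _ _).trans hh
        rw [← hP (fun i => h * v i) (fun i => hN.trans (Nat.le_mul_of_pos_right h (hv1 i))),
          ← mul_div_assoc]
        refine div_le_div_of_nonneg_right ?_ (by positivity)
        have h3 := ncard_le (sumExp Δ d fun i => h * v i) _ (sumExp_degree Δ d _) v₀
        have h4 : ∑ i : Fin d, h * v i * ((i : ℕ) + 1) + 1 ≤ (c + 1) * h := by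
          have : ∑ i : Fin d, h * v i * ((i : ℕ) + 1) = h * c := by
            rw [hc, Finset.mul_sum]
            exact Finset.sum_congr rfl fun i _ => by ring
          rw [this]; nlinarith
        have h5 := h3.trans (Nat.pow_le_pow_left h4 (Fintype.card V - 1))
        rw [← mul_pow]
        exact_mod_cast h5
      have h3 : ∀ᶠ h : ℕ in atTop, 0 ≤ eval (fun i => ((h * v i : ℕ) : ℚ)) P / (h : ℚ) ^ Q := by
        filter_upwards [eventually_ge_atTop N] with h hh
        rw [← hP (fun i => h * v i) (fun i => hh.trans (Nat.le_mul_of_pos_right h (hv1 i)))]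
        positivity
      have h4 : Tendsto (fun h : ℕ => ((c : ℚ) + 1) ^ (Fintype.card V - 1)
          * ((h : ℚ) ^ (Fintype.card V - 1) / (h : ℚ) ^ Q)) atTop (𝓝 0) := by
        have := (tendsto_pow_div _ _ hcon).const_mul (((c : ℚ) + 1) ^ (Fintype.card V - 1))
        rwa [mul_zero] at this
      exact tendsto_nhds_unique h1
        (tendsto_of_tendsto_of_tendsto_of_le_of_le' tendsto_const_nhds h4 h3 h2)
  -- the top component is nonzero
  obtain ⟨m, hm, hmd⟩ : ∃ m ∈ P.support, m.degree = Q := by
    obtain ⟨m, hm, h⟩ := Finset.exists_mem_eq_sup P.support (by rwa [support_nonempty])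
      (fun s => s.sum fun _ e => e)
    refine ⟨m, hm, ?_⟩
    rw [hQ, totalDegree, h, Finsupp.degree_eq_sum, Finsupp.sum_fintype _ _ (fun _ => rfl)]
  have h1 : T.coeff m = P.coeff m := by
    rw [hT, coeff_homogeneousComponent, if_pos hmd]
  rw [hT0, coeff_zero] at h1
  exact (mem_support_iff.mp hm) h1.symm

/-- the coefficient is the growth constant in direction `i` -/
theorem tendsto_coeff [Fintype V] (hV : 2 ≤ Fintype.card V) (d : ℕ)
    (P : MvPolynomial (Fin d) ℚ) (hdeg : P.totalDegree ≤ Fintype.card V - 1) (N : ℕ) (i : Fin d) :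
    Tendsto (fun h : ℕ => eval (fun j => ((Function.update (fun _ => N) i h : Fin d → ℕ) j : ℚ)) P
      / (h : ℚ) ^ (Fintype.card V - 1)) atTop
      (𝓝 (P.coeff (Finsupp.single i (Fintype.card V - 1)))) := by
  classical
  set q := Fintype.card V - 1 with hq
  have hq0 : q ≠ 0 := by omega
  have e0 : P.coeff (Finsupp.single i q) = ∑ m ∈ P.support,
      P.coeff m * (if m = Finsupp.single i q then 1 else 0) := by
    simp only [mul_ite, mul_one, mul_zero, Finset.sum_ite_eq', mem_support_iff]
    split_ifs with h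
    · rfl
    · push Not at h; exact h
  rw [e0]
  have e1 : ∀ h : ℕ, eval (fun j => ((Function.update (fun _ => N) i h : Fin d → ℕ) j : ℚ)) P
      / (h : ℚ) ^ q = ∑ m ∈ P.support, P.coeff m * ((∏ j ∈ Finset.univ.erase i, (N : ℚ) ^ m j)
        * ((h : ℚ) ^ m i / (h : ℚ) ^ q)) := by
    intro h
    rw [eval_expand, Finset.sum_div]
    refine Finset.sum_congr rfl fun m _ => ?_
    rw [← Finset.mul_prod_erase _ _ (Finset.mem_univ i), Function.update_self]
    have : ∏ j ∈ Finset.univ.erase i,
        ((Function.update (fun _ => N) i h : Fin d → ℕ) j : ℚ) ^ m j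
        = ∏ j ∈ Finset.univ.erase i, (N : ℚ) ^ m j :=
      Finset.prod_congr rfl fun j hj => by rw [Function.update_of_ne (Finset.ne_of_mem_erase hj)]
    rw [this]; ring
  simp_rw [e1]
  refine tendsto_finsetSum _ fun m hm => Tendsto.const_mul _ ?_
  have hmd : ∑ j, m j ≤ q := by
    have := (le_totalDegree hm).trans hdeg
    rwa [Finsupp.sum_fintype _ _ (fun _ => rfl)] at this
  have hsplit := Finset.add_sum_erase Finset.univ (fun j => m j) (Finset.mem_univ i)
  by_cases hmi : m i = q
  · have hz : ∀ j, j ≠ i → m j = 0 := by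
      intro j hj
      have := Finset.single_le_sum (f := fun j => m j) (fun _ _ => Nat.zero_le _)
        (Finset.mem_erase.mpr ⟨hj, Finset.mem_univ j⟩)
      omega
    have hms : m = Finsupp.single i q := by
      ext j
      by_cases hj : j = i
      · subst hj; simp [hmi]
      · rw [hz j hj, Finsupp.single_eq_of_ne hj]
    rw [if_pos hms]
    have hprod : ∏ j ∈ Finset.univ.erase i, (N : ℚ) ^ m j = 1 :=
      Finset.prod_eq_one fun j hj => by rw [hz j (Finset.ne_of_mem_erase hj), pow_zero]
    rw [hprod, hmi]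
    refine Tendsto.congr' ?_ tendsto_const_nhds
    filter_upwards [eventually_gt_atTop 0] with h hh
    have : (h : ℚ) ≠ 0 := by exact_mod_cast hh.ne'
    rw [div_self (pow_ne_zero _ this), mul_one]
  · have hne : m ≠ Finsupp.single i q := by
      rintro rfl
      simp at hmi
    rw [if_neg hne]
    have hlt : m i < q := by
      omega
    have := (tendsto_pow_div _ _ hlt).const_mul (∏ j ∈ Finset.univ.erase i, (N : ℚ) ^ m j)
    rwa [mul_zero] at this

end growth

end Pool.Agent.MP4aa539
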