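import Pool.Agent.Lib.MP_4aa539_al.Count
import Pool.Agent.Lib.MP_4aa539_al.Growth

set_option autoImplicit false

namespace Pool.Agent.MP4aa539

open Finset MvPolynomial Filter Topology
open scoped Pointwise

/-- fifteen templates for the faces with twelve vertices -/
def F11 : Family 11 15 4 5 12 where
  τ k g := if (k : ℕ) < 3 then 1 else
    if ((g : ℕ) + 12 - ((k : ℕ) - 3)) % 12 = 0 then 1 else
    if ((g : ℕ) + 12 - ((k : ℕ) - 3)) % 12 ≤ 5 then 2 else 0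
  κ k := if (k : ℕ) < 3 then 0 else 1
  hτ := by decide
  hκ := by decide
  hd := by decide
  h := by decide
  h1 := by decide
  h2 := by decide
  h3 := by decide

/-- four templates for the faces with ten vertices -/
def F9 : Family 9 4 1 1 4 where
  τ k g := if (g : ℕ) / 3 = k then 1 else if (g : ℕ) / 3 = ((k : ℕ) + 1) % 4 then 2 else 0
  κ _ := 1
  hτ := by decide
  hκ := by decide
  hd := by decide
  h := by decide
  h1 := by decide
  h2 := by decide
  h3 := by decide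

lemma nsmul_nonempty {M : Type} [AddCommMonoid M] (S : Set M) (hS : S.Nonempty) (t : ℕ) :
    (t • S).Nonempty := by
  obtain ⟨x, hx⟩ := hS
  exact ⟨t • x, Set.nsmul_mem_nsmul hx⟩

lemma shift {V : Type} [Finite V] (Δ : SComplex V) (d : ℕ)
    (hne : ∀ j : Fin d, (faceExp Δ j).Nonempty) (N : ℕ) (j : Fin d) (h : ℕ) :
    (h • faceExp Δ j).ncard ≤ (sumExp Δ d (Function.update (fun _ => N) j h)).ncard := by
  classical
  obtain ⟨e, he⟩ : (∑ i ∈ univ.erase j, N • faceExp Δ i).Nonempty := by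
    choose x hx using fun i : Fin d => hne i
    exact ⟨∑ i ∈ univ.erase j, N • x i,
      Set.finsetSum_mem_finsetSum _ _ _ fun i _ => Set.nsmul_mem_nsmul (hx i)⟩
  have hs : sumExp Δ d (Function.update (fun _ => N) j h)
      = h • faceExp Δ j + ∑ i ∈ univ.erase j, N • faceExp Δ i := by
    unfold sumExp
    rw [← add_sum_erase univ _ (mem_univ j), Function.update_self]
    congr 1
    refine sum_congr rfl fun i hi => ?_
    rw [Function.update_of_ne (ne_of_mem_erase hi)]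
  refine Set.ncard_le_ncard_of_injOn (fun x => x + e) ?_ ?_ (sumExp_finite _ _ _)
  · intro x hx
    rw [hs]
    exact Set.add_mem_add hx he
  · intro x _ y _ hxy
    exact add_right_cancel hxy

/-- the growth constant of the lower bound -/
def Rlow (N sα sβ sζ p : ℕ) : ℚ :=
  ((sα * p) ^ 12 * (sβ * p) ^ 12 * (sζ * p) ^ 19 : ℕ) / ((N * (p + 3)) ^ 43 : ℕ)

/-- the other factor of the lower bound -/
def Clow (N sζ p : ℕ) : ℚ :=
  (N ^ 23 * (sζ * p) ^ 18 : ℕ) / (((23).factorial * (N * (p + 3)) ^ 42 : ℕ) : ℚ)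

lemma algebra_low (M N sα sβ sζ p s : ℕ) (hN : 1 ≤ N) (hs : 1 ≤ s) :
    2 ^ (12 * (M + 1)) / Fm (M + 1) * (Clow N sζ p * Rlow N sα sβ sζ p ^ M) =
    ((s : ℚ) * (2 ^ (12 * (M + 1)) *
      ((((sα * (p * s) : ℕ) : ℚ) ^ (M + 1 - 1) / ((M + 1 - 1).factorial : ℚ)) ^ 12 *
      ((((sβ * (p * s) : ℕ) : ℚ) ^ (M + 1 - 1) / ((M + 1 - 1).factorial : ℚ)) ^ 12 *
        ((((sζ * (p * s) : ℕ) : ℚ) ^ (19 * (M + 1) - 1) / ((19 * (M + 1) - 1).factorial : ℚ)) *
          (((N * s : ℕ) : ℚ) ^ 23 / ((23).factorial : ℚ))))))) /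
      ((N * ((p + 3) * s) : ℕ) : ℚ) ^ (43 * (M + 1) - 1) := by
  have e1 : M + 1 - 1 = M := by omega
  have e2 : 19 * (M + 1) - 1 = 19 * M + 18 := by omega
  have e3 : 43 * (M + 1) - 1 = 43 * M + 42 := by omega
  unfold Fm Clow Rlow
  rw [e1, e2, e3]
  have hs' : (s : ℚ) ≠ 0 := by positivity
  have hN' : (N : ℚ) ≠ 0 := by positivity
  have hp : ((p : ℚ) + 3) ≠ 0 := by positivity
  have hf1 : ((M.factorial : ℕ) : ℚ) ≠ 0 := Nat.cast_ne_zero.mpr (Nat.factorial_ne_zero _)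
  have hf2 : (((19 * M + 18).factorial : ℕ) : ℚ) ≠ 0 :=
    Nat.cast_ne_zero.mpr (Nat.factorial_ne_zero _)
  have hf3 : (((23).factorial : ℕ) : ℚ) ≠ 0 := Nat.cast_ne_zero.mpr (Nat.factorial_ne_zero _)
  push_cast
  generalize ((M.factorial : ℕ) : ℚ) = f1 at *
  generalize (((19 * M + 18).factorial : ℕ) : ℚ) = f2 at *
  generalize (((23).factorial : ℕ) : ℚ) = f3 at *
  generalize (p : ℚ) + 3 = P at *
  rw [div_pow (((sα : ℚ) * p) ^ 12 * ((sβ : ℚ) * p) ^ 12 * ((sζ : ℚ) * p) ^ 19)]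
  field_simp
  ring

lemma coeff_low {i N sα sβ sζ : ℕ} (F : Family i N sα sβ sζ) (hi : i + 1 ≤ 13) (hi2 : 1 ≤ i)
    (hN : 1 ≤ N) (hsα : 1 ≤ sα) (hsζ : 1 ≤ sζ) (p M : ℕ) (hm : i + 1 ≤ M + 1)
    (P : MvPolynomial (Fin 12) ℚ) (N₀ : ℕ)
    (hP : ∀ u : Fin 12 → ℕ, (∀ j, N₀ ≤ u j) →
      ((sumExp (cx (M + 1)) 12 u).ncard : ℚ) = eval (fun j => (u j : ℚ)) P)
    (j : Fin 12) (hj : (j : ℕ) = i) :
    2 ^ (12 * (M + 1)) / Fm (M + 1) * (Clow N sζ p * Rlow N sα sβ sζ p ^ M)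
      ≤ P.coeff (Finsupp.single j (43 * (M + 1) - 1)) := by
  have hcard := card_Vt (M + 1)
  have hdeg := totalDegree_le (Sum.inr ⟨0, by omega⟩) (cx (M + 1)) 12 P N₀ hP
  have T := tendsto_coeff (V := Vt (M + 1)) (by rw [hcard]; omega) 12 P hdeg N₀ j
  rw [hcard] at T
  have hsub : Tendsto (fun s : ℕ => N * ((p + 3) * s)) atTop atTop := by
    refine tendsto_atTop_mono (fun s => ?_) tendsto_id
    show s ≤ N * ((p + 3) * s)
    calc s ≤ (p + 3) * s := Nat.le_mul_of_pos_left _ (by omega)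
      _ ≤ N * ((p + 3) * s) := Nat.le_mul_of_pos_left _ hN
  refine ge_of_tendsto (T.comp hsub) ?_
  filter_upwards [eventually_ge_atTop (max (M + 1) N₀)] with s hs
  have hs1 : M + 1 ≤ s := le_trans (le_max_left _ _) hs
  have hs2 : N₀ ≤ s := le_trans (le_max_right _ _) hs
  have hs3 : s ≤ N * ((p + 3) * s) := by
    calc s ≤ (p + 3) * s := Nat.le_mul_of_pos_left _ (by omega)
      _ ≤ N * ((p + 3) * s) := Nat.le_mul_of_pos_left _ hN
  simp only [Function.comp]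
  rw [algebra_low M N sα sβ sζ p s hN (by omega), ← hP]
  · refine div_le_div_of_nonneg_right ?_ (by positivity)
    refine (card_Dat (M + 1) (by omega) N sα sβ sζ p s hs1 hsα).trans ?_
    refine Nat.cast_le.mpr ?_
    refine (lower_count F hi hi2 (M + 1) hm hsα hsζ p s hs1).trans ?_
    have := shift (cx (M + 1)) 12 (faceExp_nonempty (M + 1) (by omega)) N₀ j
      (N * ((p + 3) * s))
    rwa [hj] at this
  · intro k
    by_cases hk : k = j
    · subst hk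
      rw [Function.update_self]
      omega
    · rw [Function.update_of_ne hk]

lemma tendsto_aff (a C : ℕ) :
    Tendsto (fun h : ℕ => ((a * h + C : ℕ) : ℚ) / (h : ℚ)) atTop (𝓝 (a : ℚ)) := by
  have h1 : Tendsto (fun h : ℕ => (a : ℚ) + (C : ℚ) * (h : ℚ)⁻¹) atTop
      (𝓝 ((a : ℚ) + (C : ℚ) * 0)) :=
    tendsto_const_nhds.add (tendsto_const_nhds.mul
      (tendsto_inv_atTop_zero.comp tendsto_natCast_atTop_atTop))
  rw [mul_zero, add_zero] at h1
  refine h1.congr' ?_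
  filter_upwards [eventually_gt_atTop 0] with h hh
  have : (h : ℚ) ≠ 0 := by exact_mod_cast hh.ne'
  push_cast
  field_simp

lemma coeff_up (M : ℕ)
    (P : MvPolynomial (Fin 12) ℚ) (N₀ : ℕ)
    (hP : ∀ u : Fin 12 → ℕ, (∀ j, N₀ ≤ u j) →
      ((sumExp (cx (M + 1)) 12 u).ncard : ℚ) = eval (fun j => (u j : ℚ)) P) :
    P.coeff (Finsupp.single 10 (43 * (M + 1) - 1)) ≤
      2 ^ (12 * (M + 1)) / Fm (M + 1) * (11 ^ 42 * (341 ^ 43 / Qc) ^ M) := by
  have hcard := card_Vt (M + 1)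
  have hdeg := totalDegree_le (Sum.inr ⟨0, by omega⟩) (cx (M + 1)) 12 P N₀ hP
  have T := tendsto_coeff (V := Vt (M + 1)) (by rw [hcard]; omega) 12 P hdeg N₀ 10
  rw [hcard] at T
  obtain ⟨C, hC⟩ := upper (M + 1) (by omega) N₀
  have h11 := tendsto_aff 11 C
  have h341 := tendsto_aff 341 C
  have T2 := (h11.pow 24).mul (((tendsto_const_nhds (x := (2 : ℚ) ^ (12 * (M + 1)))).mul
    ((((h341.pow 43).div_const Qc).pow M).mul (h11.pow 18))).div_const (Fm (M + 1)))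
  have hval : ((11 : ℕ) : ℚ) ^ 24 * (2 ^ (12 * (M + 1)) *
      ((((341 : ℕ) : ℚ) ^ 43 / Qc) ^ M * ((11 : ℕ) : ℚ) ^ 18) / Fm (M + 1))
      = 2 ^ (12 * (M + 1)) / Fm (M + 1) * (11 ^ 42 * (341 ^ 43 / Qc) ^ M) := by
    have := (Fm_pos (M + 1)).ne'
    generalize Fm (M + 1) = F at *
    generalize Qc = Q at *
    push_cast
    ring
  rw [← hval]
  refine le_of_tendsto_of_tendsto T T2 ?_
  filter_upwards [eventually_ge_atTop (max 1 N₀)] with h hh
  have hh1 : 1 ≤ h := le_trans (le_max_left _ _) hh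
  have hh2 : N₀ ≤ h := le_trans (le_max_right _ _) hh
  rw [← hP]
  · refine (div_le_div_of_nonneg_right (hC h) (by positivity)).trans (le_of_eq ?_)
    have h0 : (h : ℚ) ≠ 0 := by positivity
    have e3 : 43 * (M + 1) - 1 = 43 * M + 42 := by omega
    have e1 : M + 1 - 1 = M := by omega
    have hQ : Qc ≠ 0 := by unfold Qc; positivity
    have := (Fm_pos (M + 1)).ne'
    rw [e3, e1]
    generalize Fm (M + 1) = F at *
    generalize Qc = Q at *
    generalize ((11 * h + C : ℕ) : ℚ) = A at *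
    generalize ((341 * h + C : ℕ) : ℚ) = B at *
    rw [div_pow (B ^ 43), div_pow ((B / (h : ℚ)) ^ 43), div_pow B]
    simp only [div_pow]
    field_simp
    ring
  · intro k
    by_cases hk : k = 10
    · subst hk
      rw [Function.update_self]
      omega
    · rw [Function.update_of_ne hk]

lemma Qc_pos : 0 < Qc := by unfold Qc; positivity

lemma Rlow11 : 341 ^ 43 / Qc < Rlow 15 4 5 12 1000 := by
  unfold Rlow Qc
  norm_num

lemma Rlow9 : 341 ^ 43 / Qc < Rlow 4 1 1 4 1000 := by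
  unfold Rlow Qc
  norm_num

lemma Clow_pos (N sζ p : ℕ) (hN : 1 ≤ N) (hsζ : 1 ≤ sζ) (hp : 1 ≤ p) : 0 < Clow N sζ p := by
  unfold Clow
  have : 0 < N ^ 23 * (sζ * p) ^ 18 := by positivity
  have h2 : 0 < (23).factorial * (N * (p + 3)) ^ 42 :=
    Nat.mul_pos (Nat.factorial_pos _) (by positivity)
  exact div_pos (by exact_mod_cast this) (Nat.cast_pos.mpr h2)

lemma eventually_lt (k a b c : ℚ) (ha : 0 < a) (hab : a < b) (hc : 0 < c) :
    ∀ᶠ M : ℕ in atTop, k * a ^ M < c * b ^ M := by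
  have h1 : 1 < b / a := (one_lt_div ha).mpr hab
  have h2 := tendsto_pow_atTop_atTop_of_one_lt h1
  filter_upwards [h2.eventually_gt_atTop (k / c)] with M hM
  rw [div_pow, div_lt_div_iff₀ hc (by positivity)] at hM
  linarith

lemma exists_M : ∃ M : ℕ, 12 ≤ M ∧
    11 ^ 42 * (341 ^ 43 / Qc) ^ M < Clow 15 12 1000 * Rlow 15 4 5 12 1000 ^ M ∧
    11 ^ 42 * (341 ^ 43 / Qc) ^ M < Clow 4 4 1000 * Rlow 4 1 1 4 1000 ^ M := by
  have h0 : 0 < 341 ^ 43 / Qc := div_pos (by positivity) Qc_pos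
  have h1 := eventually_lt (11 ^ 42) _ _ _ h0 Rlow11
    (Clow_pos 15 12 1000 (by norm_num) (by norm_num) (by norm_num))
  have h2 := eventually_lt (11 ^ 42) _ _ _ h0 Rlow9
    (Clow_pos 4 4 1000 (by norm_num) (by norm_num) (by norm_num))
  obtain ⟨M, hM⟩ := (h1.and (h2.and (eventually_ge_atTop 12))).exists
  exact ⟨M, hM.2.2, hM.1, hM.2.1⟩

lemma low_pos (N sα sβ sζ p M : ℕ) (hN : 1 ≤ N) (hsα : 1 ≤ sα) (hsβ : 1 ≤ sβ) (hsζ : 1 ≤ sζ)
    (hp : 1 ≤ p) : 0 < 2 ^ (12 * (M + 1)) / Fm (M + 1) * (Clow N sζ p * Rlow N sα sβ sζ p ^ M) := by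
  refine mul_pos (div_pos (by positivity) (Fm_pos _)) (mul_pos (Clow_pos N sζ p hN hsζ hp) ?_)
  unfold Rlow
  positivity

/-- The counterexample. -/
theorem main : ∃ m : ℕ, (cx m).IsPure 12 ∧ 2 ≤ m ∧ ∃ P : MvPolynomial (Fin 12) ℚ,
    (∃ N₀ : ℕ, ∀ u : Fin 12 → ℕ, (∀ j, N₀ ≤ u j) →
      ((sumExp (cx m) 12 u).ncard : ℚ) = eval (fun j => (u j : ℚ)) P) ∧
    P.totalDegree ≤ Fintype.card (Vt m) - 1 ∧
    0 < P.coeff (Finsupp.single 9 (Fintype.card (Vt m) - 1)) ∧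
    P.coeff (Finsupp.single 10 (Fintype.card (Vt m) - 1)) <
      P.coeff (Finsupp.single 9 (Fintype.card (Vt m) - 1)) ∧
    P.coeff (Finsupp.single 10 (Fintype.card (Vt m) - 1)) <
      P.coeff (Finsupp.single 11 (Fintype.card (Vt m) - 1)) := by
  obtain ⟨M, hM, h11, h9⟩ := exists_M
  obtain ⟨P, N₀, hP⟩ := exists_poly (cx (M + 1)) 12 (faceExp_nonempty (M + 1) (by omega))
  have hdeg := totalDegree_le (Sum.inr ⟨0, by omega⟩) (cx (M + 1)) 12 P N₀ hP
  have hpos : (0 : ℚ) < 2 ^ (12 * (M + 1)) / Fm (M + 1) := div_pos (by positivity) (Fm_pos _)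
  refine ⟨M + 1, cx_pure (M + 1) (by omega), by omega, P, ⟨N₀, hP⟩, hdeg, ?_, ?_, ?_⟩
  · rw [card_Vt]
    exact (low_pos 4 1 1 4 1000 M (by norm_num) (by norm_num) (by norm_num) (by norm_num)
      (by norm_num)).trans_le (coeff_low F9 (by norm_num) (by norm_num) (by norm_num)
      (by norm_num) (by norm_num) 1000 M (by omega) P N₀ hP 9 rfl)
  · rw [card_Vt]
    refine (coeff_up M P N₀ hP).trans_lt ?_
    refine lt_of_lt_of_le ?_ (coeff_low F9 (by norm_num) (by norm_num) (by norm_num)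
      (by norm_num) (by norm_num) 1000 M (by omega) P N₀ hP 9 rfl)
    exact mul_lt_mul_of_pos_left h9 hpos
  · rw [card_Vt]
    refine (coeff_up M P N₀ hP).trans_lt ?_
    refine lt_of_lt_of_le ?_ (coeff_low F11 (by norm_num) (by norm_num) (by norm_num)
      (by norm_num) (by norm_num) 1000 M (by omega) P N₀ hP 11 rfl)
    exact mul_lt_mul_of_pos_left h11 hpos

/-- The polynomial is unique. -/
lemma mixed_unique (K : Type) [Field K] {V : Type} (Δ : SComplex V) (d : ℕ)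
    (P Q : MvPolynomial (Fin d) ℚ) (hP : IsMixedPoly K Δ d P) (hQ : IsMixedPoly K Δ d Q) :
    P = Q := by
  obtain ⟨N₁, h₁⟩ := hP
  obtain ⟨N₂, h₂⟩ := hQ
  refine funext_set (fun _ : Fin d => {x : ℚ | ∃ n : ℕ, max N₁ N₂ ≤ n ∧ x = n}) (fun _ => ?_) ?_
  · have : Set.InjOn (fun n : ℕ => (n : ℚ)) (Set.Ici (max N₁ N₂)) := Nat.cast_injective.injOn
    refine ((Set.Ici_infinite (max N₁ N₂)).image this).mono ?_
    rintro _ ⟨n, hn, rfl⟩
    exact ⟨n, hn, rfl⟩
  · intro x hx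
    choose n hn hxn using fun i => hx i (Set.mem_univ i)
    have hx' : x = fun i => (n i : ℚ) := funext hxn
    rw [hx', ← h₁ n fun i => (le_max_left _ _).trans (hn i),
      ← h₂ n fun i => (le_max_right _ _).trans (hn i)]

end Pool.Agent.MP4aa539
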