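import Pool.Agent.Lib.MP_4aa539_al.Upper

set_option autoImplicit false

namespace Pool.Agent.MP4aa539

open Finset
open scoped Pointwise

variable {m : ℕ}

lemma ind_support {V : Type} (y : V →₀ ℕ) (h01 : ∀ v, y v ≤ 1) : ind y.support = y := by
  classical
  ext v
  rw [ind_apply]
  have := h01 v
  split_ifs with h
  · rw [Finsupp.mem_support_iff] at h; omega
  · rw [Finsupp.mem_support_iff, not_not] at h; omega

lemma mem_faceExp_of {y : Vt m →₀ ℕ} {i : ℕ} (h01 : ∀ v, y v ≤ 1) (hd : y.degree = i + 1)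
    (hF : y.support ∈ (cx m).faces) : y ∈ faceExp (cx m) i := by
  refine ⟨y.support, hF, ?_, (ind_support y h01).symm⟩
  rw [← degree_ind, ind_support y h01, hd]

lemma mem_faceExp_A {y : Vt m →₀ ℕ} {i : ℕ} (h01 : ∀ v, y v ≤ 1) (hd : y.degree = i + 1)
    (hi : i + 1 ≤ 13) (hc : ∀ c, y (Sum.inr c) = 0) : y ∈ faceExp (cx m) i := by
  refine mem_faceExp_of h01 hd (Or.inl ⟨?_, ?_⟩)
  · rw [coreCard, card_eq_zero, filter_eq_empty_iff]
    rintro (v | c) hv hr
    · simp at hr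
    · rw [Finsupp.mem_support_iff] at hv
      exact hv (hc c)
  · rw [← degree_ind, ind_support y h01, hd]
    exact hi

lemma coreCard_support (y : Vt m →₀ ℕ) (h01 : ∀ v, y v ≤ 1) :
    coreCard y.support = ∑ c, y (Sum.inr c) := by
  classical
  conv_rhs => rw [← ind_support y h01]
  simp only [ind_apply]
  rw [coreCard, card_filter]
  rw [← card_filter, ← card_filter]
  rw [← card_image_of_injective (f := (Sum.inr : Fin (19 * m) → Vt m))
    (univ.filter fun c => (Sum.inr c : Vt m) ∈ y.support) Sum.inr_injective]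
  congr 1
  ext v
  rw [mem_filter, mem_image]
  constructor
  · rintro ⟨hv, hr⟩
    rcases v with v | c
    · simp at hr
    · exact ⟨c, by rw [mem_filter]; exact ⟨mem_univ _, hv⟩, rfl⟩
  · rintro ⟨c, hc, rfl⟩
    rw [mem_filter] at hc
    exact ⟨hc.2, rfl⟩

lemma mem_faceExp_B {y : Vt m →₀ ℕ} {i : ℕ} (h01 : ∀ v, y v ≤ 1) (hd : y.degree = i + 1)
    (hc : ∑ c, y (Sum.inr c) ≤ 1) (T : Finset (Fin 12 × Fin m)) (hT : T.card ≤ 6)
    (hy : ∀ g r e, y (Sum.inl (g, r, e)) ≠ 0 → (g, r) ∈ T) : y ∈ faceExp (cx m) i := by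
  refine mem_faceExp_of h01 hd (Or.inr ⟨?_, ?_⟩)
  · rw [coreCard_support y h01]; exact hc
  · refine (card_le_card ?_).trans hT
    intro b hb
    rw [touch, mem_filter] at hb
    obtain ⟨_, e, he⟩ := hb
    rw [Finsupp.mem_support_iff] at he
    exact hy b.1 b.2 e he

/-- one vertex of a pair of the group `g` -/
def S1 (m : ℕ) (g : Fin 12) : Set (Vt m →₀ ℕ) :=
  {y | ∃ (r : Fin m) (e : Bool), y = Finsupp.single (Sum.inl (g, r, e)) 1}

/-- both vertices of a pair of the group `g` -/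
def S2 (m : ℕ) (g : Fin 12) : Set (Vt m →₀ ℕ) :=
  {y | ∃ r : Fin m, y = Finsupp.single (Sum.inl (g, r, true)) 1 +
    Finsupp.single (Sum.inl (g, r, false)) 1}

/-- one core vertex -/
def SC (m : ℕ) : Set (Vt m →₀ ℕ) := {y | ∃ c : Fin (19 * m), y = Finsupp.single (Sum.inr c) 1}

/-- the part of a template in the group `g` -/
def St (m : ℕ) (g : Fin 12) (t : ℕ) : Set (Vt m →₀ ℕ) :=
  if t = 1 then S1 m g else if t = 2 then S2 m g else 0

lemma mem_St (g : Fin 12) (t : ℕ) (ht : t ≤ 2) (y : Vt m →₀ ℕ) (hy : y ∈ St m g t) :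
    y.degree = t ∧ (∀ v, y v ≤ 1) ∧ (∀ c, y (Sum.inr c) = 0) ∧
      ∃ T : Finset (Fin 12 × Fin m), T.card = (if t = 0 then 0 else 1) ∧
        ∀ g' r e, y (Sum.inl (g', r, e)) ≠ 0 → g' = g ∧ (g', r) ∈ T := by
  unfold St at hy
  split_ifs at hy with h1 h2
  · subst h1
    obtain ⟨r, e, rfl⟩ := hy
    refine ⟨by simp, fun v => ?_, fun c => ?_, {(g, r)}, by simp, ?_⟩
    · rw [Finsupp.single_apply]; split_ifs <;> omega
    · rw [Finsupp.single_apply, if_neg (by simp)]
    · intro g' r' e' h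
      rw [Finsupp.single_apply_ne_zero] at h
      have h := Sum.inl.inj h.1
      simp only [Prod.mk.injEq] at h
      rw [h.1, h.2.1]
      simp
  · subst h2
    obtain ⟨r, rfl⟩ := hy
    refine ⟨by simp, fun v => ?_, fun c => ?_, {(g, r)}, by simp, ?_⟩
    · rw [Finsupp.add_apply, Finsupp.single_apply, Finsupp.single_apply]
      split_ifs with h3 h4 <;> try omega
      rw [← h4] at h3
      simp at h3
    · rw [Finsupp.add_apply, Finsupp.single_apply, Finsupp.single_apply, if_neg (by simp),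
        if_neg (by simp), add_zero]
    · intro g' r' e' h
      rw [Finsupp.add_apply] at h
      have : Finsupp.single (Sum.inl (g, r, true) : Vt m) 1 (Sum.inl (g', r', e')) ≠ 0 ∨
        Finsupp.single (Sum.inl (g, r, false) : Vt m) 1 (Sum.inl (g', r', e')) ≠ 0 := by omega
      rcases this with h | h
      all_goals
        rw [Finsupp.single_apply_ne_zero] at h
        have h := Sum.inl.inj h.1
        simp only [Prod.mk.injEq] at h
        rw [h.1, h.2.1]
        simp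
  · have : t = 0 := by omega
    subst this
    have : y = 0 := hy
    subst this
    refine ⟨by simp, fun v => by simp, fun c => rfl, ∅, by simp, ?_⟩
    intro g' r e h
    exact absurd rfl h

lemma template (τ : Fin 12 → ℕ) (κ i : ℕ) (hτ : ∀ g, τ g ≤ 2) (hκ : κ ≤ 1)
    (hd : ∑ g, τ g + κ = i + 1)
    (h : (κ = 0 ∧ i + 1 ≤ 13) ∨ ∑ g, (if τ g = 0 then 0 else 1) ≤ 6) :
    ∑ g, St m g (τ g) + κ • SC m ⊆ faceExp (cx m) i := by
  classical
  rintro y hy
  obtain ⟨y1, hy1, w, hw, rfl⟩ := Set.mem_add.mp hy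
  rw [Set.mem_fintype_sum] at hy1
  obtain ⟨x, hx, rfl⟩ := hy1
  have hx' := fun g => mem_St g (τ g) (hτ g) (x g) (hx g)
  have hw' : w.degree = κ ∧ (∀ v, w v ≤ 1) ∧ (∀ v, w (Sum.inl v) = 0) ∧
      (κ = 0 → w = 0) := by
    rcases Nat.le_one_iff_eq_zero_or_eq_one.mp hκ with rfl | rfl
    · rw [zero_smul] at hw
      have : w = 0 := hw
      subst this
      simp
    · rw [one_smul] at hw
      obtain ⟨c, rfl⟩ := hw
      refine ⟨by simp, fun v => ?_, fun v => ?_, by simp⟩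
      · rw [Finsupp.single_apply]; split_ifs <;> omega
      · rw [Finsupp.single_apply, if_neg (by simp)]
  choose hx1 hx2 hx3 T hT hx4 using hx'
  -- values
  have hval : ∀ g r e, (∑ g', x g' + w) (Sum.inl (g, r, e)) = x g (Sum.inl (g, r, e)) := by
    intro g r e
    rw [Finsupp.add_apply, hw'.2.2.1, add_zero, Finsupp.finsetSum_apply]
    refine sum_eq_single g (fun g' _ hg' => ?_) (fun h => absurd (mem_univ _) h)
    by_contra hne
    exact hg' (hx4 g' g r e hne).1.symm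
  have hvalc : ∀ c, (∑ g', x g' + w) (Sum.inr c) = w (Sum.inr c) := by
    intro c
    rw [Finsupp.add_apply, Finsupp.finsetSum_apply]
    simp [hx3]
  have h01 : ∀ v, (∑ g', x g' + w) v ≤ 1 := by
    rintro (⟨g, r, e⟩ | c)
    · rw [hval]; exact hx2 g _
    · rw [hvalc]; exact hw'.2.1 _
  have hdeg : (∑ g', x g' + w).degree = i + 1 := by
    rw [map_add, map_sum, hw'.1, ← hd]
    congr 1
    exact sum_congr rfl fun g _ => hx1 g
  rcases h with ⟨h1, h2⟩ | h
  · refine mem_faceExp_A h01 hdeg h2 fun c => ?_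
    rw [hvalc, hw'.2.2.2 h1]
    rfl
  · refine mem_faceExp_B h01 hdeg ?_ (univ.biUnion T) ?_ ?_
    · simp only [hvalc]
      have : w.degree ≤ 1 := by rw [hw'.1]; exact hκ
      rw [Finsupp.degree_eq_sum, Fintype.sum_sum_type] at this
      omega
    · refine card_biUnion_le.trans (le_trans (le_of_eq ?_) h)
      exact sum_congr rfl fun g _ => hT g
    · intro g r e hne
      rw [hval] at hne
      rw [mem_biUnion]
      exact ⟨g, mem_univ _, (hx4 g g r e hne).2⟩

/-- A family of `N` templates with prescribed column sums. -/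
structure Family (i N sα sβ sζ : ℕ) where
  τ : Fin N → Fin 12 → ℕ
  κ : Fin N → ℕ
  hτ : ∀ k g, τ k g ≤ 2
  hκ : ∀ k, κ k ≤ 1
  hd : ∀ k, ∑ g, τ k g + κ k = i + 1
  h : ∀ k, (κ k = 0 ∧ i + 1 ≤ 13) ∨ ∑ g, (if τ k g = 0 then 0 else 1) ≤ 6
  h1 : ∀ g, ∑ k, (if τ k g = 1 then 1 else 0) = sα
  h2 : ∀ g, ∑ k, (if τ k g = 2 then 1 else 0) = sβ
  h3 : ∑ k, κ k = sζ

lemma family_sum {i N sα sβ sζ : ℕ} (F : Family i N sα sβ sζ) :
    ∑ g, (sα • S1 m g + sβ • S2 m g) + sζ • SC m ⊆ N • faceExp (cx m) i := by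
  have h0 : N • faceExp (cx m) i = ∑ _k : Fin N, faceExp (cx m) i := by simp
  have h1 : ∑ g, (sα • S1 m g + sβ • S2 m g) + sζ • SC m
      = ∑ k, (∑ g, St m g (F.τ k g) + F.κ k • SC m) := by
    conv_rhs => rw [sum_add_distrib, sum_comm, sum_nsmul_assoc, F.h3]
    congr 1
    refine sum_congr rfl fun g _ => ?_
    have e1 : sα • S1 m g = ∑ k, (if F.τ k g = 1 then 1 else 0) • S1 m g := by
      rw [sum_nsmul_assoc, F.h1 g]
    have e2 : sβ • S2 m g = ∑ k, (if F.τ k g = 2 then 1 else 0) • S2 m g := by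
      rw [sum_nsmul_assoc, F.h2 g]
    rw [e1, e2, ← sum_add_distrib]
    refine sum_congr rfl fun k _ => ?_
    unfold St
    have := F.hτ k g
    interval_cases F.τ k g <;> simp
  rw [h0, h1]
  exact Set.finsetSum_subset_finsetSum _ _ _ fun k _ =>
    template (F.τ k) (F.κ k) i (F.hτ k) (F.hκ k) (F.hd k) (F.h k)

lemma sum_nsmul_mem {ι M : Type} [AddCommMonoid M] (s : Finset ι) (a : ι → ℕ) (f : ι → M)
    (S : Set M) (hf : ∀ i ∈ s, f i ∈ S) : ∑ i ∈ s, a i • f i ∈ (∑ i ∈ s, a i) • S := by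
  rw [← sum_nsmul_assoc]
  exact Set.finsetSum_mem_finsetSum _ _ _ fun i hi => Set.nsmul_mem_nsmul (hf i hi)

lemma prof_mem {i N sα sβ sζ : ℕ} (F : Family i N sα sβ sζ) (K : ℕ)
    (σ : Fin 12 → Fin m → Bool) (a b : Fin 12 → Fin m → ℕ) (z : Fin (19 * m) → ℕ)
    (ha : ∀ g, ∑ r, a g r = sα * K) (hb : ∀ g, ∑ r, b g r = sβ * K) (hz : ∑ c, z c = sζ * K) :
    prof σ a b z ∈ (N * K) • faceExp (cx m) i := by
  classical
  have h1 : K • (∑ g, (sα • S1 m g + sβ • S2 m g) + sζ • SC m)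
      ⊆ (N * K) • faceExp (cx m) i := by
    rw [mul_comm N K, mul_nsmul']
    exact Set.nsmul_subset_nsmul_left (family_sum F)
  refine h1 ?_
  have h2 : K • (∑ g, (sα • S1 m g + sβ • S2 m g) + sζ • SC m)
      = ∑ g, ((sα * K) • S1 m g + (sβ * K) • S2 m g) + (sζ * K) • SC m := by
    rw [nsmul_add, ← sum_nsmul]
    simp only [nsmul_add, ← mul_nsmul]
  rw [h2]
  have h3 : prof σ a b z = ∑ g, (∑ r, a g r • Finsupp.single (Sum.inl (g, r, σ g r)) 1 +
      ∑ r, b g r • (Finsupp.single (Sum.inl (g, r, true)) 1 +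
        Finsupp.single (Sum.inl (g, r, false)) 1)) + ∑ c, z c • Finsupp.single (Sum.inr c) 1 := by
    ext v
    rcases v with ⟨g, r, e⟩ | c
    · rw [prof_inl]
      simp only [Finsupp.add_apply, Finsupp.finsetSum_apply, Finsupp.smul_apply,
        Finsupp.single_apply, smul_eq_mul, reduceCtorEq, if_false, mul_zero, sum_const_zero,
        add_zero, Sum.inl.injEq, Prod.mk.injEq]
      rw [sum_eq_single g]
      · rw [sum_eq_single r, sum_eq_single r]
        · cases e <;> cases σ g r <;> simp [add_comm]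
        · intro r' _ hr'
          simp [hr']
        · intro h; exact absurd (mem_univ _) h
        · intro r' _ hr'
          simp [hr']
        · intro h; exact absurd (mem_univ _) h
      · intro g' _ hg'
        simp [hg']
      · intro h; exact absurd (mem_univ _) h
    · rw [prof_inr]
      simp [Finsupp.single_apply]
  rw [h3]
  refine Set.add_mem_add (Set.finsetSum_mem_finsetSum _ _ _ fun g _ => Set.add_mem_add ?_ ?_) ?_
  · rw [← ha g]
    exact sum_nsmul_mem _ _ _ _ fun r _ => ⟨r, σ g r, rfl⟩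
  · rw [← hb g]
    exact sum_nsmul_mem _ _ _ _ fun r _ => ⟨r, rfl⟩
  · rw [← hz]
    exact sum_nsmul_mem _ _ _ _ fun c _ => ⟨c, rfl⟩

end Pool.Agent.MP4aa539
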