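import Pool.Agent.Lib.MP_4aa539_al.Complex
import Pool.Agent.Lib.MP_4aa539_al.Poly

set_option autoImplicit false

namespace Pool.Agent.MP4aa539

open Finset
open scoped Pointwise

lemma ind_apply {V : Type} [DecidableEq V] (F : Finset V) (v : V) :
    ind F v = if v ∈ F then 1 else 0 := by
  unfold ind
  rw [Finsupp.finsetSum_apply]
  simp [Finsupp.single_apply]

/-- subadditive functionals are bounded on sumsets -/
lemma subadd_nsmul {V : Type} (f : (V →₀ ℕ) → ℕ) (h0 : f 0 = 0)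
    (hadd : ∀ y z, f (y + z) ≤ f y + f z) (S : Set (V →₀ ℕ)) (w : ℕ) (hw : ∀ s ∈ S, f s ≤ w)
    (t : ℕ) : ∀ s ∈ t • S, f s ≤ t * w := by
  induction t with
  | zero =>
    intro s hs
    rw [zero_smul] at hs
    have : s = 0 := hs
    rw [this, h0]; simp
  | succ t ih =>
    intro s hs
    rw [succ_nsmul] at hs
    obtain ⟨a, ha, b, hb, rfl⟩ := Set.mem_add.mp hs
    have := hadd a b
    have := ih a ha
    have := hw b hb
    rw [add_mul, one_mul]
    omega

lemma subadd_sumExp {V : Type} (Δ : SComplex V) (d : ℕ) (u : Fin d → ℕ) (f : (V →₀ ℕ) → ℕ)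
    (h0 : f 0 = 0) (hadd : ∀ y z, f (y + z) ≤ f y + f z) (w : Fin d → ℕ)
    (hw : ∀ j : Fin d, ∀ s ∈ faceExp Δ j, f s ≤ w j) :
    ∀ y ∈ sumExp Δ d u, f y ≤ ∑ j, u j * w j := by
  intro y hy
  unfold sumExp at hy
  rw [Set.mem_fintype_sum] at hy
  obtain ⟨g, hg, rfl⟩ := hy
  refine (Finset.le_sum_of_subadditive f h0.le hadd univ g).trans ?_
  exact Finset.sum_le_sum fun j _ => subadd_nsmul f h0 hadd _ _ (hw j) _ _ (hg j)

/-- the functional -/
def Mx {m : ℕ} (y : Vt m →₀ ℕ) : ℕ :=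
  ∑ g : Fin 12, ∑ r : Fin m, max (y (Sum.inl (g, r, true))) (y (Sum.inl (g, r, false)))
    + 5 * ∑ c, y (Sum.inr c)

lemma Mx_zero {m : ℕ} : Mx (0 : Vt m →₀ ℕ) = 0 := by simp [Mx]

lemma Mx_add_le {m : ℕ} (y z : Vt m →₀ ℕ) : Mx (y + z) ≤ Mx y + Mx z := by
  unfold Mx
  simp only [Finsupp.add_apply, sum_add_distrib]
  have : ∑ g : Fin 12, ∑ r : Fin m, max (y (Sum.inl (g, r, true)) + z (Sum.inl (g, r, true)))
      (y (Sum.inl (g, r, false)) + z (Sum.inl (g, r, false)))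
      ≤ ∑ g : Fin 12, ∑ r : Fin m, (max (y (Sum.inl (g, r, true))) (y (Sum.inl (g, r, false)))
        + max (z (Sum.inl (g, r, true))) (z (Sum.inl (g, r, false)))) := by
    refine sum_le_sum fun g _ => sum_le_sum fun r _ => ?_
    omega
  simp only [sum_add_distrib] at this
  omega

lemma Mx_ind {m : ℕ} (F : Finset (Vt m)) : Mx (ind F) = (touch F).card + 5 * coreCard F := by
  classical
  unfold Mx
  congr 1
  · rw [touch, card_filter, Fintype.sum_prod_type]
    refine sum_congr rfl fun g _ => sum_congr rfl fun r _ => ?_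
    rw [ind_apply, ind_apply]
    simp only [Bool.exists_bool]
    split_ifs <;> simp_all
  · congr 1
    rw [coreCard, card_filter]
    have : ∑ c : Fin (19 * m), ind F (Sum.inr c) = ∑ v : Vt m, if v ∈ F ∧ v.isRight then 1 else 0 := by
      rw [Fintype.sum_sum_type]
      simp [ind_apply]
    rw [this, ← card_filter, ← card_filter]
    congr 1
    ext v
    simp

lemma touch_card_le {m : ℕ} (F : Finset (Vt m)) : (touch F).card ≤ F.card := by
  classical
  refine card_le_card_of_injOn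
    (fun b => Sum.inl (b.1, b.2, if (Sum.inl (b.1, b.2, true) : Vt m) ∈ F then true else false))
    ?_ ?_
  · intro b hb
    rw [mem_coe, touch, mem_filter] at hb
    obtain ⟨_, e, he⟩ := hb
    show (Sum.inl (b.1, b.2, if (Sum.inl (b.1, b.2, true) : Vt m) ∈ F then true else false)
      : Vt m) ∈ F
    split_ifs with h
    · exact h
    · cases e
      · exact he
      · exact absurd he h
  · rintro ⟨a, b⟩ _ ⟨c, d⟩ _ h
    have := Sum.inl.inj h
    simp only [Prod.mk.injEq] at this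
    exact Prod.ext this.1 this.2.1

lemma Mx_face {m : ℕ} (F : Finset (Vt m)) (hF : F ∈ (cx m).faces) : Mx (ind F) ≤ 18 := by
  rw [Mx_ind]
  have := touch_card_le F
  rcases hF with ⟨h1, h2⟩ | ⟨h1, h2⟩ <;> omega

lemma Mx_face_eleven {m : ℕ} (F : Finset (Vt m)) (hF : F ∈ (cx m).faces) (hc : F.card = 11) :
    Mx (ind F) ≤ 11 := by
  rw [Mx_ind]
  have := touch_card_le F
  rcases hF with ⟨h1, h2⟩ | ⟨h1, h2⟩ <;> omega

/-- the vector with signs `σ`, differences `a`, minima `b`, and core part `z` -/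
noncomputable def prof {m : ℕ} (σ : Fin 12 → Fin m → Bool) (a b : Fin 12 → Fin m → ℕ)
    (z : Fin (19 * m) → ℕ) : Vt m →₀ ℕ :=
  Finsupp.equivFunOnFinite.symm
    (Sum.elim (fun x => b x.1 x.2.1 + if x.2.2 = σ x.1 x.2.1 then a x.1 x.2.1 else 0) z)

lemma prof_inl {m : ℕ} (σ : Fin 12 → Fin m → Bool) (a b : Fin 12 → Fin m → ℕ)
    (z : Fin (19 * m) → ℕ) (g : Fin 12) (r : Fin m) (e : Bool) :
    prof σ a b z (Sum.inl (g, r, e)) = b g r + if e = σ g r then a g r else 0 := rfl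

lemma prof_inr {m : ℕ} (σ : Fin 12 → Fin m → Bool) (a b : Fin 12 → Fin m → ℕ)
    (z : Fin (19 * m) → ℕ) (c : Fin (19 * m)) : prof σ a b z (Sum.inr c) = z c := rfl

/-- differences of a vector -/
def df {m : ℕ} (y : Vt m →₀ ℕ) (g : Fin 12) (r : Fin m) : ℕ :=
  max (y (Sum.inl (g, r, true))) (y (Sum.inl (g, r, false)))
    - min (y (Sum.inl (g, r, true))) (y (Sum.inl (g, r, false)))

/-- minima of a vector -/
def mn {m : ℕ} (y : Vt m →₀ ℕ) (g : Fin 12) (r : Fin m) : ℕ :=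
  min (y (Sum.inl (g, r, true))) (y (Sum.inl (g, r, false)))

lemma prof_self {m : ℕ} (y : Vt m →₀ ℕ) :
    prof (fun g r => decide (y (Sum.inl (g, r, false)) ≤ y (Sum.inl (g, r, true)))) (df y) (mn y)
      (fun c => y (Sum.inr c)) = y := by
  ext v
  rcases v with ⟨g, r, e⟩ | c
  · rw [prof_inl]
    unfold df mn
    by_cases h : y (Sum.inl (g, r, false)) ≤ y (Sum.inl (g, r, true))
    · cases e <;> simp [h] 
    · cases e <;> simp [h] <;> omega
  · rw [prof_inr]

/-- all vectors with given group sums -/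
noncomputable def Tset (m : ℕ) (α β : Fin 12 → ℕ) (Z : ℕ) : Finset (Vt m →₀ ℕ) :=
  ((univ : Finset (Fin 12 → Fin m → Bool)) ×ˢ
    ((Fintype.piFinset fun g => piAntidiag (univ : Finset (Fin m)) (α g)) ×ˢ
      ((Fintype.piFinset fun g => piAntidiag (univ : Finset (Fin m)) (β g)) ×ˢ
        piAntidiag (univ : Finset (Fin (19 * m))) Z))).image
    (fun x => prof x.1 x.2.1 x.2.2.1 x.2.2.2)

lemma mem_Tset (m : ℕ) (y : Vt m →₀ ℕ) :
    y ∈ Tset m (fun g => ∑ r, df y g r) (fun g => ∑ r, mn y g r) (∑ c, y (Sum.inr c)) := by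
  rw [Tset, mem_image]
  refine ⟨(fun g r => decide (y (Sum.inl (g, r, false)) ≤ y (Sum.inl (g, r, true))), df y, mn y,
    fun c => y (Sum.inr c)), ?_, prof_self y⟩
  simp

lemma card_Tset_le (m : ℕ) (α β : Fin 12 → ℕ) (Z : ℕ) :
    (Tset m α β Z).card ≤ 2 ^ (12 * m) * ((∏ g, (m + α g - 1).choose (α g)) *
      ((∏ g, (m + β g - 1).choose (β g)) * (19 * m + Z - 1).choose Z)) := by
  refine card_image_le.trans ?_
  rw [card_product, card_product, card_product, Fintype.card_piFinset, Fintype.card_piFinset,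
    card_comps, Fintype.card_fin]
  simp only [card_comps, Fintype.card_fin]
  have : (univ : Finset (Fin 12 → Fin m → Bool)).card = 2 ^ (12 * m) := by
    rw [card_univ]
    simp [← pow_mul, mul_comm]
  rw [this]

lemma choose_bound (m t : ℕ) (hm : 1 ≤ m) :
    (((m + t - 1).choose t : ℕ) : ℚ) ≤ ((t + m : ℕ) : ℚ) ^ (m - 1) / ((m - 1).factorial : ℚ) := by
  have h1 : (m + t - 1).choose t = (m + t - 1).choose (m - 1) := by
    rw [← Nat.choose_symm_of_eq_add (show m + t - 1 = t + (m - 1) by omega)]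
  rw [h1]
  refine (Nat.choose_le_pow_div (α := ℚ) (m - 1) (m + t - 1)).trans ?_
  gcongr
  omega

/-- the inequality between the arithmetic and the geometric mean -/
lemma amgm {ι : Type} [Fintype ι] [Nonempty ι] (a : ι → ℕ) :
    (∏ i, a i) * Fintype.card ι ^ Fintype.card ι ≤ (∑ i, a i) ^ Fintype.card ι := by
  have hn : (0 : ℝ) < Fintype.card ι := by exact_mod_cast Fintype.card_pos
  have hn0 : Fintype.card ι ≠ 0 := Fintype.card_ne_zero
  have h := Real.geom_mean_le_arith_mean_weighted (univ : Finset ι)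
    (fun _ => (Fintype.card ι : ℝ)⁻¹) (fun i => (a i : ℝ)) (fun _ _ => by positivity)
    (by rw [sum_const, card_univ, nsmul_eq_mul, mul_inv_cancel₀ hn.ne'])
    (fun _ _ => by positivity)
  rw [← mul_sum] at h
  have h2 := pow_le_pow_left₀ (by positivity) h (Fintype.card ι)
  rw [← prod_pow, mul_pow] at h2
  have h3 : ∀ i : ι, ((a i : ℝ) ^ (Fintype.card ι : ℝ)⁻¹) ^ Fintype.card ι = a i := fun i =>
    Real.rpow_inv_natCast_pow (by positivity) hn0
  simp only [h3] at h2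
  rw [inv_pow, inv_mul_eq_div, le_div_iff₀ (by positivity)] at h2
  exact_mod_cast h2

/-- the case used below -/
lemma amgm43 (x y : Fin 12 → ℕ) (ζ : ℕ) :
    ((∏ g, x g) * (∏ g, y g) * ζ ^ 19) * (31 ^ 12 * 27 ^ 12 * 9 ^ 19 * 43 ^ 43)
      ≤ (31 * ∑ g, x g + 27 * ∑ g, y g + 171 * ζ) ^ 43 := by
  have h := amgm (ι := Fin 12 ⊕ (Fin 12 ⊕ Fin 19))
    (Sum.elim (fun g => 31 * x g) (Sum.elim (fun g => 27 * y g) (fun _ => 9 * ζ)))
  rw [Fintype.prod_sum_type, Fintype.prod_sum_type, Fintype.sum_sum_type,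
    Fintype.sum_sum_type] at h
  simp only [Sum.elim_inl, Sum.elim_inr, prod_mul_distrib, prod_const, card_univ,
    Fintype.card_sum, Fintype.card_fin, sum_const, smul_eq_mul, ← mul_sum] at h
  rw [show 12 + (12 + 19) = 43 from rfl] at h
  refine le_trans (le_of_eq ?_) (h.trans (le_of_eq ?_))
  · ring
  · congr 1
    ring

/-- the constant of the upper bound -/
def Qc : ℚ := 31 ^ 12 * 27 ^ 12 * 9 ^ 19 * 43 ^ 43

/-- the common factor of the denominators -/
def Fm (m : ℕ) : ℚ := ((m - 1).factorial : ℚ) ^ 24 * ((19 * m - 1).factorial : ℚ)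

lemma Fm_pos (m : ℕ) : 0 < Fm m := by unfold Fm; positivity

lemma card_Tset_le' (m : ℕ) (hm : 1 ≤ m) (α β : Fin 12 → ℕ) (Z W D : ℕ)
    (h : 31 * ∑ g, (α g + m) + 27 * ∑ g, (β g + m) + 171 * (Z + 19 * m) ≤ W)
    (hD : Z + 19 * m ≤ D) :
    ((Tset m α β Z).card : ℚ) ≤
      2 ^ (12 * m) * (((W : ℚ) ^ 43 / Qc) ^ (m - 1) * (D : ℚ) ^ 18) / Fm m := by
  have h0 := amgm43 (fun g => α g + m) (fun g => β g + m) (Z + 19 * m)
  have h1 := h0.trans (Nat.pow_le_pow_left h 43)
  have h2 : ((∏ g, ((α g + m : ℕ) : ℚ)) * (∏ g, ((β g + m : ℕ) : ℚ)) * ((Z + 19 * m : ℕ) : ℚ) ^ 19)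
      ≤ (W : ℚ) ^ 43 / Qc := by
    rw [le_div_iff₀ (by unfold Qc; positivity)]
    unfold Qc
    exact_mod_cast h1
  have h3 : ((Tset m α β Z).card : ℚ) ≤ 2 ^ (12 * m) * (
      (∏ g, (((α g + m : ℕ) : ℚ) ^ (m - 1) / ((m - 1).factorial : ℚ))) *
      ((∏ g, (((β g + m : ℕ) : ℚ) ^ (m - 1) / ((m - 1).factorial : ℚ))) *
        (((Z + 19 * m : ℕ) : ℚ) ^ (19 * m - 1) / ((19 * m - 1).factorial : ℚ)))) := by
    refine (Nat.cast_le.mpr (card_Tset_le m α β Z)).trans ?_
    push_cast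
    gcongr with g _ g _
    · exact_mod_cast choose_bound m (α g) hm
    · exact_mod_cast choose_bound m (β g) hm
    · exact_mod_cast choose_bound (19 * m) Z (by omega)
  refine h3.trans ?_
  have h4 : (∏ g, (((α g + m : ℕ) : ℚ) ^ (m - 1) / ((m - 1).factorial : ℚ))) *
      ((∏ g, (((β g + m : ℕ) : ℚ) ^ (m - 1) / ((m - 1).factorial : ℚ))) *
        (((Z + 19 * m : ℕ) : ℚ) ^ (19 * m - 1) / ((19 * m - 1).factorial : ℚ)))
      = (((∏ g, ((α g + m : ℕ) : ℚ)) * (∏ g, ((β g + m : ℕ) : ℚ)) *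
        ((Z + 19 * m : ℕ) : ℚ) ^ 19) ^ (m - 1) * ((Z + 19 * m : ℕ) : ℚ) ^ 18) / Fm m := by
    rw [prod_div_distrib, prod_div_distrib, prod_pow, prod_pow, prod_const, card_univ,
      Fintype.card_fin]
    have e : 19 * m - 1 = 19 * (m - 1) + 18 := by omega
    unfold Fm
    rw [e, mul_pow, mul_pow, ← pow_mul, pow_add]
    field_simp
  rw [h4]
  have := Fm_pos m
  have h5 : (0 : ℚ) ≤ (∏ g, ((α g + m : ℕ) : ℚ)) * (∏ g, ((β g + m : ℕ) : ℚ)) *
    ((Z + 19 * m : ℕ) : ℚ) ^ 19 := by positivity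
  refine (mul_le_mul_of_nonneg_left ?_ (by positivity)).trans_eq
    (mul_div_assoc _ _ _).symm
  refine div_le_div_of_nonneg_right ?_ this.le
  refine mul_le_mul (pow_le_pow_left₀ h5 h2 _) ?_ (by positivity) (by unfold Qc; positivity)
  exact pow_le_pow_left₀ (by positivity) (by exact_mod_cast hD) _

lemma degree_eq {m : ℕ} (y : Vt m →₀ ℕ) :
    y.degree = ∑ g, ∑ r, df y g r + 2 * ∑ g, ∑ r, mn y g r + ∑ c, y (Sum.inr c) := by
  rw [Finsupp.degree_eq_sum, Fintype.sum_sum_type, Fintype.sum_prod_type]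
  congr 1
  rw [mul_sum, ← sum_add_distrib]
  refine sum_congr rfl fun g _ => ?_
  rw [Fintype.sum_prod_type, mul_sum, ← sum_add_distrib]
  refine sum_congr rfl fun r _ => ?_
  rw [Fintype.sum_bool]
  unfold df mn
  omega

lemma Mx_eq {m : ℕ} (y : Vt m →₀ ℕ) :
    Mx y = ∑ g, ∑ r, df y g r + ∑ g, ∑ r, mn y g r + 5 * ∑ c, y (Sum.inr c) := by
  unfold Mx
  congr 1
  rw [← sum_add_distrib]
  refine sum_congr rfl fun g _ => ?_
  rw [← sum_add_distrib]
  refine sum_congr rfl fun r _ => ?_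
  unfold df mn
  omega

/-- The upper bound for faces with eleven vertices. -/
theorem upper (m : ℕ) (hm : 1 ≤ m) (N : ℕ) : ∃ C : ℕ, ∀ h : ℕ,
    ((sumExp (cx m) 12 (Function.update (fun _ => N) 10 h)).ncard : ℚ) ≤
      ((11 * h + C : ℕ) : ℚ) ^ 24 * (2 ^ (12 * m) *
        ((((341 * h + C : ℕ) : ℚ) ^ 43 / Qc) ^ (m - 1) * ((11 * h + C : ℕ) : ℚ) ^ 18) / Fm m) := by
  classical
  refine ⟨7000 * N + 4000 * m + 1, fun h => ?_⟩
  set C := 7000 * N + 4000 * m + 1 with hC
  set S := sumExp (cx m) 12 (Function.update (fun _ => N) 10 h) with hS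
  have hu : (Function.update (fun _ => N) 10 h : Fin 12 → ℕ) = ![N, N, N, N, N, N, N, N, N, N, h, N] := by
    funext j
    fin_cases j <;> rfl
  have hdeg : ∀ y ∈ S, y.degree = 11 * h + 67 * N := by
    intro y hy
    rw [sumExp_degree (cx m) 12 _ y hy, hu]
    simp [Fin.sum_univ_succ]
    ring
  have hMx : ∀ y ∈ S, Mx y ≤ 11 * h + 198 * N := by
    intro y hy
    refine (subadd_sumExp (cx m) 12 _ Mx Mx_zero Mx_add_le
      ![18, 18, 18, 18, 18, 18, 18, 18, 18, 18, 11, 18] ?_ y hy).trans (le_of_eq ?_)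
    · rintro j _ ⟨F, hF, hc, rfl⟩
      have h18 := Mx_face F hF
      fin_cases j
      all_goals first
        | exact h18
        | exact Mx_face_eleven F hF hc
    · rw [hu]
      simp [Fin.sum_univ_succ]
      ring
  set E := 11 * h + 67 * N with hE
  set idx : Finset ((Fin 12 → ℕ) × (Fin 12 → ℕ)) :=
    ((Fintype.piFinset fun _ : Fin 12 => range (11 * h + C)) ×ˢ
      (Fintype.piFinset fun _ : Fin 12 => range (11 * h + C))).filter
      (fun p => 31 * ∑ g, (p.1 g + m) + 27 * ∑ g, (p.2 g + m)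
        + 171 * ((E - ∑ g, p.1 g - 2 * ∑ g, p.2 g) + 19 * m) ≤ 341 * h + C) with hidx
  have hsub : S ⊆ ↑(idx.biUnion fun p => Tset m p.1 p.2 (E - ∑ g, p.1 g - 2 * ∑ g, p.2 g)) := by
    intro y hy
    have h1 := hdeg y hy
    have h2 := hMx y hy
    rw [degree_eq] at h1
    rw [Mx_eq] at h2
    rw [mem_coe, mem_biUnion]
    refine ⟨(fun g => ∑ r, df y g r, fun g => ∑ r, mn y g r), ?_, ?_⟩
    · rw [hidx, mem_filter, mem_product, Fintype.mem_piFinset, Fintype.mem_piFinset]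
      refine ⟨⟨fun g => ?_, fun g => ?_⟩, ?_⟩
      · rw [mem_range]
        have := single_le_sum (f := fun g => ∑ r, df y g r) (fun _ _ => Nat.zero_le _) (mem_univ g)
        simp only at this ⊢
        omega
      · rw [mem_range]
        have := single_le_sum (f := fun g => ∑ r, mn y g r) (fun _ _ => Nat.zero_le _) (mem_univ g)
        simp only at this ⊢
        omega
      · simp only [sum_add_distrib, sum_const, card_univ, Fintype.card_fin, smul_eq_mul]
        omega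
    · have : E - ∑ g, ∑ r, df y g r - 2 * ∑ g, ∑ r, mn y g r = ∑ c, y (Sum.inr c) := by omega
      simp only [this]
      exact mem_Tset m y
  have hcard : (idx.card : ℚ) ≤ ((11 * h + C : ℕ) : ℚ) ^ 24 := by
    have : idx.card ≤ (11 * h + C) ^ 24 := by
      refine (card_filter_le _ _).trans (le_of_eq ?_)
      rw [card_product, Fintype.card_piFinset]
      simp only [card_range, prod_const, card_univ, Fintype.card_fin]
      rw [← pow_add]
    exact_mod_cast this
  have h1 : (S.ncard : ℚ) ≤ ∑ p ∈ idx,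
      ((Tset m p.1 p.2 (E - ∑ g, p.1 g - 2 * ∑ g, p.2 g)).card : ℚ) := by
    have : S.ncard ≤ ∑ p ∈ idx, (Tset m p.1 p.2 (E - ∑ g, p.1 g - 2 * ∑ g, p.2 g)).card := by
      refine (Set.ncard_le_ncard hsub (finite_toSet _)).trans ?_
      rw [Set.ncard_coe_finset]
      exact card_biUnion_le
    exact_mod_cast this
  refine h1.trans ((sum_le_card_nsmul _ _ (2 ^ (12 * m) *
        ((((341 * h + C : ℕ) : ℚ) ^ 43 / Qc) ^ (m - 1) * ((11 * h + C : ℕ) : ℚ) ^ 18) / Fm m)
        ?_).trans ?_)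
  · intro p hp
    rw [hidx, mem_filter] at hp
    exact card_Tset_le' m hm _ _ _ _ _ hp.2 (by omega)
  · rw [nsmul_eq_mul]
    refine mul_le_mul_of_nonneg_right hcard ?_
    have := Fm_pos m
    have : 0 < Qc := by unfold Qc; positivity
    positivity

end Pool.Agent.MP4aa539
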